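import Pool.Agent.N110.QDefs

/-!
Definitions: dominant rational self-maps with `K_X + Δ` at most `f^* (K_X + Δ)`, and self-maps which
are finite in codimension one.
-/

set_option autoImplicit false

open FF Pool.Agent.W602.GT Pool.Agent.Y172 Pool.Agent.R887

namespace Pool.Agent.Helper45M.TR

section

variable {K : Type} [Field K] [Algebra ℂ K] {N : ℕ}

/-- Let `f` be the dominant rational self-map of `X` given by `φ`. The divisor `K_X + Δ` is at most
`f^* (K_X + Δ)` over the prime divisors of `X`: if `P` is a prime divisor of `X` and `Q` a divisor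
over `X` with the image `P`, with the ramification index `e`, then the log discrepancy of `(X, Δ)`
along `Q` is at least `e (1 - Δ P)`. -/
def SelfPushLe (φ : K →ₐ[ℂ] K) (y : Fin (N + 1) → K) (n : ℕ) (Δ : Place ℂ K → ℚ) : Prop :=
  ∀ P : Place ℂ K, IsPrimeDivisor y P → ∀ (Q : Place ℂ K) (e : ℕ), LiesOver φ Q P e →
    ∃ α : ℚ, LogDisc y n Δ Q α ∧ e * (1 - Δ P) ≤ α

/-- The dominant rational self-map `f` of `X` given by `φ` is finite in codimension one, and
`f^* (K_X + Δ)` is at most `K_X + Δ`: a place `Q` is a prime divisor of `X` if and only if its image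
`P` is a prime divisor of `X`, and then `1 - Δ Q ≤ e (1 - Δ P)`, `e` being the ramification index.
Surjective endomorphisms of `X` are finite in codimension one, and for `Δ = 0` the inequality
holds since `e ≥ 1`. -/
def FiniteCodimOne (φ : K →ₐ[ℂ] K) (y : Fin (N + 1) → K) (Δ : Place ℂ K → ℚ) : Prop :=
  ∀ (Q P : Place ℂ K) (e : ℕ), LiesOver φ Q P e →
    (IsPrimeDivisor y Q ↔ IsPrimeDivisor y P) ∧ (IsPrimeDivisor y Q → 1 - Δ Q ≤ e * (1 - Δ P))

end

end Pool.Agent.Helper45M.TR
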