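import Pool.Agent.Helper45M.TR.Push
import Pool.Agent.Helper45M.TR.Defs
import Pool.Agent.N110.QAssem

/-!
Sections are combinations of pull backs of sections.
-/

set_option autoImplicit false
set_option linter.overlappingInstances false
set_option linter.unusedSectionVars false

open FF Module MvPolynomial Pool.Agent.W602.GT Pool.Agent.W603.LV
open Pool.Agent.Y172 Pool.Agent.Y191 Pool.Agent.R887 Pool.Agent.W619.PQ Pool.Agent.N110

namespace Pool.Agent.Helper45M.TR

section

variable {K K' : Type} [Field K] [Algebra ℂ K] [Field K'] [Algebra ℂ K'] {N N' n : ℕ}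
  {y : Fin (N + 1) → K} {y' : Fin (N' + 1) → K'}

/-- the expansion with respect to the dual basis of the trace form -/
theorem expand_trace [Algebra K K'] [IsScalarTower ℂ K K'] [FiniteDimensional K K'] :
    ∃ (d : ℕ) (u v : Fin d → K'), ∀ z : K',
      z = ∑ i, algebraMap K K' (Algebra.trace K K' (u i * z)) * v i := by
  have : CharZero K := charZero_of_injective_algebraMap (algebraMap ℂ K).injective
  let bs := Module.finBasis K K'
  have hnd := traceForm_nondegenerate K K'
  refine ⟨_, fun i => bs i, fun i => (Algebra.traceForm K K').dualBasis hnd bs i, fun z => ?_⟩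
  have h1 := ((Algebra.traceForm K K').dualBasis hnd bs).sum_repr z
  conv_lhs => rw [← h1]
  refine Finset.sum_congr rfl fun i _ => ?_
  rw [LinearMap.BilinForm.dualBasis_repr_apply, Algebra.smul_def, Algebra.traceForm_apply,
    mul_comm z]

/-- the jacobian of the lifted frame -/
theorem det_lift_ne [Algebra K K'] [IsScalarTower ℂ K K'] [FiniteDimensional K K']
    {x : Fin n → K} {E : Fin n → Derivation ℂ K K}
    (hE : ∀ i j, E i (x j) = if i = j then 1 else 0) {x' : Fin n → K'}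
    {E' : Fin n → Derivation ℂ K' K'} (hE' : ∀ i j, E' i (x' j) = if i = j then 1 else 0)
    (hfr' : IsFrame E') {EL : Fin n → Derivation ℂ K' K'}
    (hEL : ∀ i f, EL i (algebraMap K K' f) = algebraMap K K' (E i f)) :
    (Matrix.of fun i j => EL i (x' j)).det ≠ 0 := by
  choose a ha using fun i => hfr' (EL i)
  have h0 : ∀ i j, a i j = EL i (x' j) := by
    intro i j
    have h1 : EL i (x' j) = (∑ l, a i l • E' l) (x' j) := by rw [← ha i]
    rw [h1, sum_smul_apply, Finset.sum_eq_single j]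
    · rw [hE', if_pos rfl, mul_one]
    · intro l _ hl
      rw [hE', if_neg hl, mul_zero]
    · intro hj
      exact absurd (Finset.mem_univ _) hj
  have h1 : (Matrix.of fun i j => EL i (x' j)) *
      (Matrix.of fun i j => E' i (algebraMap K K' (x j))) = 1 := by
    ext i j
    rw [Matrix.mul_apply, Matrix.one_apply]
    have h2 := lift_dual hE hEL i j
    have h3 : EL i (algebraMap K K' (x j)) = (∑ l, a i l • E' l) (algebraMap K K' (x j)) := by
      rw [← ha i]
    rw [h3, sum_smul_apply] at h2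
    rw [← h2]
    exact Finset.sum_congr rfl fun l _ => by rw [Matrix.of_apply, Matrix.of_apply, h0]
  intro h2
  have h3 := congrArg Matrix.det h1
  rw [Matrix.det_mul, h2, zero_mul, Matrix.det_one] at h3
  exact zero_ne_one h3

/-- **Sections are combinations of pull backs of sections.** -/
theorem push_key (hy : NormalModel y) (hy' : NormalModel y') (hn : Algebra.trdeg ℂ K = n)
    (hn' : Algebra.trdeg ℂ K' = n) {Δ : Place ℂ K → ℚ}
    (hΔ : {P | IsPrimeDivisor y P ∧ Δ P ≠ 0}.Finite) {Δ' A' : Place ℂ K' → ℚ}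
    (hA' : Effective y' A') (ψ : K →ₐ[ℂ] K')
    (hψ : ∀ P : Place ℂ K, IsPrimeDivisor y P → ∀ (Q : Place ℂ K') (e : ℕ), LiesOver ψ Q P e →
      ∃ α : ℚ, LogDisc y' n Δ' Q α ∧ e * (1 - Δ P) ≤ α)
    {x : Fin n → K} {E : Fin n → Derivation ℂ K K} (hx : IsTranscendenceBasis ℂ x)
    (hE : ∀ i j, E i (x j) = if i = j then 1 else 0) {c : Place ℂ K → ℤ} (hc : IsDisc y E c)
    {x' : Fin n → K'} {E' : Fin n → Derivation ℂ K' K'}
    (hE' : ∀ i j, E' i (x' j) = if i = j then 1 else 0) (hfr' : IsFrame E')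
    {c' : Place ℂ K' → ℤ} (hc' : IsDisc y' E' c') :
    ∃ (V : Submodule ℂ K') (J : K'), V.FG ∧ J ≠ 0 ∧ ∃ A : Place ℂ K → ℚ, Effective y A ∧
      ∀ m b : ℕ, 1 ≤ m → 1 ≤ b → ∀ g ∈ Lsp y' c' m (m • Δ' + b • A'),
        J ^ m * g ∈ V * (Lsp y c m (m • Δ + b • A)).map ψ.toLinearMap := by
  classical
  have hess := hy.ess
  have hess' := hy'.ess
  let _ : Algebra K K' := ψ.toRingHom.toAlgebra
  have hst : IsScalarTower ℂ K K' :=
    IsScalarTower.of_algebraMap_eq fun c => (ψ.commutes c).symm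
  have hfd : FiniteDimensional K K' := finite_map hn hn'
  choose EL hEL using fun i => exists_lift (L := K') hn (E i)
  obtain ⟨d, u, v, huv⟩ := expand_trace (K := K) (K' := K')
  choose A hA hA1 using fun i => push_trace hy hy' hn hn' hΔ hA' hψ hx hE hc hE' hfr' hc' hEL (u i)
  refine ⟨Submodule.span ℂ (Set.range v), (Matrix.of fun i j => EL i (x' j)).det,
    Submodule.fg_span (Set.finite_range v), det_lift_ne hE hE' hfr' hEL, ∑ i, A i, ⟨fun P hP => ?_,
      ?_⟩, fun m b hm hb g hg => ?_⟩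
  · rw [Finset.sum_apply]
    exact Finset.sum_nonneg fun i _ => (hA i).1 P hP
  · refine (Set.finite_iUnion fun i => (hA i).2).subset ?_
    rintro P ⟨hP, h0⟩
    by_contra hcon
    simp only [Set.mem_iUnion, not_exists] at hcon
    apply h0
    rw [Finset.sum_apply]
    refine Finset.sum_eq_zero fun i _ => ?_
    by_contra h1
    exact hcon i ⟨hP, h1⟩
  · rw [huv ((Matrix.of fun i j => EL i (x' j)).det ^ m * g)]
    refine Submodule.sum_mem _ fun i _ => ?_
    have hv : v i ∈ Submodule.span ℂ (Set.range v) := Submodule.subset_span ⟨i, rfl⟩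
    have ht : Algebra.trace K K' (u i * ((Matrix.of fun i j => EL i (x' j)).det ^ m * g)) ∈
        Lsp y c m (m • Δ + b • ∑ i, A i) := by
      refine Lsp_mono le_rfl (hA i).1 (fun P hP => ?_) (hA1 i m b hm hb g hg)
      rw [Finset.sum_apply]
      exact Finset.single_le_sum (f := fun i => A i P) (fun j _ => (hA j).1 P hP)
        (Finset.mem_univ i)
    have ht' : algebraMap K K' (Algebra.trace K K'
        (u i * ((Matrix.of fun i j => EL i (x' j)).det ^ m * g))) ∈
        (Lsp y c m (m • Δ + b • ∑ i, A i)).map ψ.toLinearMap := ⟨_, ht, rfl⟩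
    have h5 := Submodule.mul_mem_mul hv ht'
    rwa [mul_comm (v i)] at h5

end

section

variable {K : Type} [Field K] [Algebra ℂ K] {N n : ℕ} {y : Fin (N + 1) → K}

/-- sections are combinations of pull backs of sections, for all divisors -/
def EPush (y : Fin (N + 1) → K) (c : Place ℂ K → ℤ) (Δ : Place ℂ K → ℚ) (ψ : K →ₐ[ℂ] K) :
    Prop :=
  ∀ A, Effective y A → ∃ (V : Submodule ℂ K) (J : K), V.FG ∧ J ≠ 0 ∧ ∃ A', Effective y A' ∧
    ∀ m b : ℕ, 1 ≤ m → 1 ≤ b → ∀ g ∈ Lsp y c m (m • Δ + b • A),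
      J ^ m * g ∈ V * (Lsp y c m (m • Δ + b • A')).map ψ.toLinearMap

theorem EPush.one (c : Place ℂ K → ℤ) (Δ : Place ℂ K → ℚ) : EPush y c Δ 1 := by
  intro A hA
  refine ⟨Submodule.span ℂ {1}, 1, Submodule.fg_span_singleton _, one_ne_zero, A, hA,
    fun m b _ _ g hg => ?_⟩
  rw [one_pow]
  exact Submodule.mul_mem_mul (Submodule.subset_span rfl) ⟨g, hg, rfl⟩

theorem EPush.mul {c : Place ℂ K → ℤ} {Δ : Place ℂ K → ℚ} {φ ψ : K →ₐ[ℂ] K}
    (h1 : EPush y c Δ φ) (h2 : EPush y c Δ ψ) : EPush y c Δ (φ * ψ) := by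
  intro A hA
  obtain ⟨V, J, hV, hJ, A', hA', h3⟩ := h1 A hA
  obtain ⟨V', J', hV', hJ', A'', hA'', h4⟩ := h2 A' hA'
  refine ⟨V * V'.map φ.toLinearMap, φ J' * J, hV.mul (hV'.map _),
    mul_ne_zero (by rwa [Ne, map_eq_zero]) hJ, A'', hA'', fun m b hm hb g hg => ?_⟩
  have h5 := h3 m b hm hb g hg
  have e1 : (φ J' * J) ^ m * g = φ J' ^ m * (J ^ m * g) := by ring
  rw [e1]
  have key : ∀ z ∈ V * (Lsp y c m (m • Δ + b • A')).map φ.toLinearMap,
      φ J' ^ m * z ∈ V * V'.map φ.toLinearMap *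
        (Lsp y c m (m • Δ + b • A'')).map (φ * ψ).toLinearMap := by
    intro z hz
    induction hz using Submodule.mul_induction_on' with
    | mem_mul_mem v hv w hw =>
      obtain ⟨t, ht, rfl⟩ := hw
      have h6 := h4 m b hm hb t ht
      have h7 : φ (J' ^ m * t) ∈ V'.map φ.toLinearMap *
          (Lsp y c m (m • Δ + b • A'')).map (φ * ψ).toLinearMap := by
        have h8 : (V' * (Lsp y c m (m • Δ + b • A'')).map ψ.toLinearMap).map φ.toLinearMap =
            V'.map φ.toLinearMap * (Lsp y c m (m • Δ + b • A'')).map (φ * ψ).toLinearMap := by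
          have e2 := Submodule.map_mul V' ((Lsp y c m (m • Δ + b • A'')).map ψ.toLinearMap) φ
          rw [e2, ← Submodule.map_comp]
          rfl
        rw [← h8]
        exact ⟨_, h6, rfl⟩
      have e2 : φ J' ^ m * (v * φ.toLinearMap t) = v * φ (J' ^ m * t) := by
        rw [map_mul, map_pow]
        change φ J' ^ m * (v * φ t) = _
        ring
      rw [e2, mul_assoc]
      exact Submodule.mul_mem_mul hv h7
    | add u _ w _ h1 h2 =>
      rw [mul_add]
      exact add_mem h1 h2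
  exact key _ h5

theorem EPush.word {c : Place ℂ K → ℤ} {Δ : Place ℂ K → ℚ} {S : Set (K →ₐ[ℂ] K)}
    (h : ∀ φ ∈ S, EPush y c Δ φ) (w : List (K →ₐ[ℂ] K)) (hw : ∀ φ ∈ w, φ ∈ S) :
    EPush y c Δ w.prod := by
  induction w with
  | nil => exact EPush.one c Δ
  | cons φ w ih =>
    rw [List.prod_cons]
    exact (h φ (hw φ (by simp))).mul (ih fun ψ hψ => hw ψ (by simp [hψ]))

theorem epush_of (hy : NormalModel y) (hn : Algebra.trdeg ℂ K = n) {Δ : Place ℂ K → ℚ}
    (hΔ : {P | IsPrimeDivisor y P ∧ Δ P ≠ 0}.Finite)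
    {φ : K →ₐ[ℂ] K} (hφ : SelfPushLe φ y n Δ) {x : Fin n → K}
    {E : Fin n → Derivation ℂ K K} (hx : IsTranscendenceBasis ℂ x)
    (hE : ∀ i j, E i (x j) = if i = j then 1 else 0) (hfr : IsFrame E) {c : Place ℂ K → ℤ}
    (hc : IsDisc y E c) : EPush y c Δ φ := fun _ hA =>
  push_key hy hy hn hn hΔ hA φ hφ hx hE hc hE hfr hc

end

end Pool.Agent.Helper45M.TR
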