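import Pool.Agent.Helper45M.TR.EPush

/-!
The products of the pull backs of the spaces of sections.
-/

set_option autoImplicit false
set_option linter.overlappingInstances false
set_option linter.unusedSectionVars false

open FF Module MvPolynomial Pool.Agent.W602.GT Pool.Agent.W603.LV
open Pool.Agent.Y172 Pool.Agent.Y191 Pool.Agent.R887 Pool.Agent.W619.PQ Pool.Agent.N110
open Filter Topology

namespace Pool.Agent.Helper45M.TR

section abs

variable {α : Type*}

/-- the abstract lower bound -/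
theorem eps_abs {n ν : ℕ} (hν : ν ≤ n) {t : Multiset α → ℝ}
    (hpos : ∀ s : Multiset α, s.card = n → 0 < t s) {H : α} {m : ℕ → ℝ}
    (hm : ∀ q, 0 < m q) (hmt : Tendsto m atTop atTop) {M₀ M₁ : ℕ → α} {ε v c : ℝ}
    (hε : 0 < ε) (hv : 0 < v) (hc : 0 < c)
    (h0 : ∀ q, ε * m q ^ ν ≤ t (Multiset.replicate ν (M₀ q) + Multiset.replicate (n - ν) H))
    (hadd : ∀ q, ∀ s : Multiset α, s.card + 1 = n → t (M₀ q ::ₘ s) ≤ t (M₁ q ::ₘ s) +
      v * t (H ::ₘ s))
    (hle : ∀ᶠ q in atTop, Le n t (c * m q) (M₁ q) H) :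
    ∀ᶠ q in atTop, ε / 2 ^ (ν + 1) * m q ^ ν ≤
      t (Multiset.replicate ν (M₁ q) + Multiset.replicate (n - ν) H) := by
  have hH : 0 < t (Multiset.replicate n H) := hpos _ (Multiset.card_replicate _ _)
  obtain ⟨C, hC⟩ : ∃ C : ℝ, C = ∑ a ∈ Finset.range ν, v ^ (ν - a) * (c ^ a *
    t (Multiset.replicate n H)) := ⟨_, rfl⟩
  have hC0 : 0 ≤ C := by
    rw [hC]
    exact Finset.sum_nonneg fun _ _ => by positivity
  have hε' : 0 < ε / 2 ^ (ν + 1) := by positivity
  filter_upwards [hle, hmt.eventually_ge_atTop 1,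
    hmt.eventually_ge_atTop (C / (ε / 2 ^ (ν + 1)))] with q hq hq1 hq2
  by_contra hcon
  push Not at hcon
  have h1 := expand (t := t) hv (hadd q) ν (Multiset.replicate (n - ν) H)
    (ε / 2 ^ (ν + 1) * m q ^ ν) (by rw [Multiset.card_replicate]; omega) (by
      intro a ha
      rcases Nat.lt_or_ge a ν with h | h
      · have h2 := hq.rep (mul_pos hc (hm q)).le a (Multiset.replicate (ν - a) H +
          Multiset.replicate (n - ν) H)
          (by simp only [Multiset.card_add, Multiset.card_replicate]; omega)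
        have e1 : Multiset.replicate a H + (Multiset.replicate (ν - a) H +
            Multiset.replicate (n - ν) H) = Multiset.replicate n H := by
          rw [← Multiset.replicate_add, ← Multiset.replicate_add]
          congr 1
          omega
        rw [e1] at h2
        have h3 : v ^ (ν - a) * (c ^ a * t (Multiset.replicate n H)) ≤ C := by
          rw [hC]
          exact Finset.single_le_sum (f := fun a => v ^ (ν - a) * (c ^ a *
            t (Multiset.replicate n H))) (fun _ _ => by positivity) (Finset.mem_range.2 h)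
        have h4 : m q ^ (a + 1) ≤ m q ^ ν := pow_le_pow_right₀ hq1 (by omega)
        rw [div_le_iff₀ hε'] at hq2
        calc v ^ (ν - a) * t (Multiset.replicate a (M₁ q) + (Multiset.replicate (ν - a) H +
              Multiset.replicate (n - ν) H)) ≤
              v ^ (ν - a) * ((c * m q) ^ a * t (Multiset.replicate n H)) :=
              mul_le_mul_of_nonneg_left h2 (by positivity)
          _ = v ^ (ν - a) * (c ^ a * t (Multiset.replicate n H)) * m q ^ a := by
              rw [mul_pow]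
              ring
          _ ≤ C * m q ^ a := mul_le_mul_of_nonneg_right h3 (by have := hm q; positivity)
          _ ≤ m q * (ε / 2 ^ (ν + 1)) * m q ^ a :=
              mul_le_mul_of_nonneg_right hq2 (by have := hm q; positivity)
          _ = ε / 2 ^ (ν + 1) * m q ^ (a + 1) := by ring
          _ ≤ ε / 2 ^ (ν + 1) * m q ^ ν := mul_le_mul_of_nonneg_left h4 hε'.le
      · have e1 : a = ν := le_antisymm ha h
        subst e1
        rw [Nat.sub_self, pow_zero, one_mul, Multiset.replicate_zero, zero_add]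
        exact hcon.le)
  have h2 := (h0 q).trans h1
  have h3 : (2 : ℝ) ^ ν * (ε / 2 ^ (ν + 1) * m q ^ ν) = ε / 2 * m q ^ ν := by
    rw [pow_succ]
    field_simp
  rw [h3] at h2
  have h4 : 0 < m q ^ ν := pow_pos (hm q) _
  nlinarith

end abs

section

variable {K : Type} [Field K] [Algebra ℂ K] {N n : ℕ} {y : Fin (N + 1) → K}

/-- a finitely generated space is contained in a space of sections -/
theorem fg_sections (hy : NormalModel y) {i : Fin (N + 1)} (hi : y i ≠ 0)
    {c : Place ℂ K → ℤ} (hcfin : {P | IsPrimeDivisor y P ∧ c P ≠ 0}.Finite)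
    {Δ : Place ℂ K → ℚ} (hΔ : {P | IsPrimeDivisor y P ∧ Δ P ≠ 0}.Finite)
    {V : Submodule ℂ K} (hV : V.FG) : ∃ B : Cls ℂ (affS y i), V ≤ B.V := by
  classical
  obtain ⟨T, rfl⟩ := hV
  obtain ⟨Hy, hHy, hHP⟩ := exists_hyp hy hi
  have hA : Effective y (fun P => ((∑ f ∈ T, |P.ord f| : ℤ) : ℚ)) := by
    refine ⟨fun P _ => ?_, (T.finite_toSet.biUnion fun a _ => finite_ord' hy a).subset ?_⟩
    · have : (0 : ℤ) ≤ ∑ f ∈ T, |P.ord f| := Finset.sum_nonneg fun _ _ => abs_nonneg _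
      beta_reduce
      exact_mod_cast this
    · rintro P ⟨hP, h0⟩
      by_contra hcon
      simp only [Set.mem_iUnion, not_exists] at hcon
      apply h0
      beta_reduce
      rw [Int.cast_eq_zero]
      refine Finset.sum_eq_zero fun f hf => ?_
      by_contra h1
      exact hcon f hf ⟨hP, fun h => h1 (by rw [h, abs_zero])⟩
  obtain ⟨A, hAd⟩ : ∃ A : Place ℂ K → ℚ, A = fun P => ((∑ f ∈ T, |P.ord f| : ℤ) : ℚ) :=
    ⟨_, rfl⟩
  rw [← hAd] at hA
  have h1 : (1 : K) ∈ Lsp y c 0 (0 • Δ + 0 • A) := by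
    intro P hP
    right
    rw [P.ord_one]
    simp
  have hmem : ∀ l, (1 : K) * (y l / y i) ∈ Lsp y c 0 (0 • Δ + 1 • (A + Hy)) := fun l =>
    mul_hyp hy hA hHy hHP hi h1 l
  refine ⟨secCls hy hi hcfin hΔ (Effective.add' hA hHy) 0 1 one_ne_zero hmem, ?_⟩
  rw [Submodule.span_le]
  intro f hf
  change (1 : K) * f ∈ Lsp y c 0 (0 • Δ + 1 • (A + Hy))
  rw [one_mul]
  intro P hP
  right
  have h2 : |P.ord f| ≤ ∑ f ∈ T, |P.ord f| :=
    Finset.single_le_sum (f := fun f => |P.ord f|) (fun _ _ => abs_nonneg _) hf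
  have h3 : -(∑ f ∈ T, |P.ord f|) ≤ P.ord f := by
    have := (abs_le.1 h2).1
    exact this
  have h4 := hHy.1 P hP
  have h5 : -((∑ f ∈ T, |P.ord f| : ℤ) : ℚ) ≤ (P.ord f : ℚ) := by exact_mod_cast h3
  rw [zero_smul, zero_add, one_smul, Pi.add_apply, hAd, Nat.cast_zero, zero_mul, zero_add]
  linarith

/-- **The comparison of the spaces of sections with their pull backs.** -/
theorem eps_cmp (hy : NormalModel y) (hn : Algebra.trdeg ℂ K = n) {i : Fin (N + 1)}
    (hi : y i ≠ 0) {c : Place ℂ K → ℤ} (hcfin : {P | IsPrimeDivisor y P ∧ c P ≠ 0}.Finite)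
    {Δ : Place ℂ K → ℚ} (hΔ : {P | IsPrimeDivisor y P ∧ Δ P ≠ 0}.Finite)
    {ψ : K →ₐ[ℂ] K} (hψ : EPush y c Δ ψ) {A₁ : Place ℂ K → ℚ} (hA₁ : Effective y A₁)
    {m b : ℕ → ℕ} (hm : ∀ q, 1 ≤ m q) (hb : ∀ q, 1 ≤ b q) {g0 : ℕ → K} (hg0 : ∀ q, g0 q ≠ 0)
    {M : {A : Place ℂ K → ℚ // Effective y A} → ℕ → Cls ℂ (affS y i)}
    (hM : ∀ A q v, v ∈ (M A q).V ↔
      g0 q * v ∈ Lsp y c (m q) (m q • Δ + b q • (A₁ + A.1)))
    {Z : {A : Place ℂ K → ℚ // Effective y A}} (hZ : Z.1 = 0) :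
    ∃ (A' : {A : Place ℂ K → ℚ // Effective y A}) (β₁ : ℕ), ∀ q,
      ∀ s : Multiset (Cls ℂ (affS y i)), s.card + 1 = n →
        I (M Z q ::ₘ s) ≤ I (eCls hy hn hi ψ (M A' q) ::ₘ s) + β₁ * I (hcls hy hi ::ₘ s) := by
  classical
  have cx := ctx hy hn hi
  obtain ⟨V, J, hV, hJ, A', hA', h1⟩ := hψ A₁ hA₁
  obtain ⟨B, hB⟩ := fg_sections hy hi hcfin hΔ hV
  obtain ⟨β, f, hf, hβ⟩ := B.dom
  refine ⟨⟨A', hA'⟩, β, fun q s hs => ?_⟩
  have hψg : ψ (g0 q) ≠ 0 := by rw [Ne, map_eq_zero]; exact hg0 q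
  have h2 := I_mono cx (V := M Z q) (V' := mulCls (fin_affS i) (one_affS hi) B
    (eCls hy hn hi ψ (M ⟨A', hA'⟩ q))) (g := J ^ m q * g0 q / ψ (g0 q))
    (div_ne_zero (mul_ne_zero (pow_ne_zero _ hJ) (hg0 q)) hψg) (fun v hv => ?_) hs
  · have h3 := I_add cx (D := mulCls (fin_affS i) (one_affS hi) B
      (eCls hy hn hi ψ (M ⟨A', hA'⟩ q))) (V := B) (V' := eCls hy hn hi ψ (M ⟨A', hA'⟩ q))
      le_rfl hs
    have h4 := I_dom cx (V := B) (H := hcls hy hi) (fun v hv => hv) hf hβ hs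
    omega
  · have hv' : g0 q * v ∈ Lsp y c (m q) (m q • Δ + b q • A₁) := by
      have := (hM Z q v).1 hv
      rwa [hZ, add_zero] at this
    have h3 := h1 (m q) (b q) (hm q) (hb q) _ hv'
    have e1 : J ^ m q * g0 q / ψ (g0 q) * v = (ψ (g0 q))⁻¹ * (J ^ m q * (g0 q * v)) := by
      field_simp
    rw [e1]
    have key : ∀ z ∈ V * (Lsp y c (m q) (m q • Δ + b q • A')).map ψ.toLinearMap,
        (ψ (g0 q))⁻¹ * z ∈ B.V * (eCls hy hn hi ψ (M ⟨A', hA'⟩ q)).V := by
      intro z hz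
      induction hz using Submodule.mul_induction_on' with
      | mem_mul_mem u hu w hw =>
        obtain ⟨t, ht, rfl⟩ := hw
        have h4 : t / g0 q ∈ (M ⟨A', hA'⟩ q).V := by
          rw [hM, mul_div_cancel₀ _ (hg0 q)]
          refine Lsp_mono le_rfl hA'.1 (fun P hP => ?_) ht
          have := hA₁.1 P hP
          change A' P ≤ A₁ P + A' P
          linarith
        have h5 : ψ (t / g0 q) ∈ (eCls hy hn hi ψ (M ⟨A', hA'⟩ q)).V := eCls_mem h4
        have h6 := Submodule.mul_mem_mul (hB hu) h5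
        have e2 : (ψ (g0 q))⁻¹ * (u * ψ.toLinearMap t) = u * ψ (t / g0 q) := by
          rw [map_div₀]
          change (ψ (g0 q))⁻¹ * (u * ψ t) = _
          field_simp
        rw [e2]
        exact h6
      | add u _ w _ h1 h2 =>
        rw [mul_add]
        exact add_mem h1 h2
    exact key _ h3

end

end Pool.Agent.Helper45M.TR
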