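import Pool.Agent.Helper45M.TR.Zer

/-!
Self-maps which are finite in codimension one preserve `K_X + Δ`, if it is pseudo-effective.
-/

set_option autoImplicit false
set_option linter.overlappingInstances false
set_option linter.unusedSectionVars false

open FF Module MvPolynomial Pool.Agent.W602.GT Pool.Agent.W603.LV
open Pool.Agent.Y172 Pool.Agent.Y191 Pool.Agent.R887 Pool.Agent.N110

namespace Pool.Agent.Helper45M.TR

section

variable {K K' : Type} [Field K] [Algebra ℂ K] [Field K'] [Algebra ℂ K']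

/-- the place below is unique -/
theorem lies_unique {φ : K →ₐ[ℂ] K'} {Q : Place ℂ K'} {P P' : Place ℂ K} {e e' : ℕ}
    (h : LiesOver φ Q P e) (h' : LiesOver φ Q P' e') : P = P' ∧ e = e' := by
  have key : ∀ {P P' : Place ℂ K} {e e' : ℕ}, LiesOver φ Q P e → LiesOver φ Q P' e' →
      e ∣ e' := by
    intro P P' e e' h h'
    obtain ⟨t, -, ht⟩ := P'.surj
    have h1 := h'.2 t
    rw [h.2 t, ht, mul_one] at h1
    exact Int.natCast_dvd_natCast.1 ⟨_, h1.symm⟩
  have he : e = e' := Nat.dvd_antisymm (key h h') (key h' h)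
  subst he
  refine ⟨Place.ext (funext fun f => ?_), rfl⟩
  have h1 := (h.2 f).symm.trans (h'.2 f)
  have h2 : (e : ℤ) ≠ 0 := by have := h.1; omega
  exact mul_left_cancel₀ h2 h1

/-- a place above -/
theorem above_map {n : ℕ} (hn : Algebra.trdeg ℂ K = n)
    (hess' : Algebra.EssFiniteType ℂ K') (hn' : Algebra.trdeg ℂ K' = n) (ψ : K →ₐ[ℂ] K') (P : Place ℂ K) :
    ∃ (Q : Place ℂ K') (e : ℕ), LiesOver ψ Q P e := by
  let _ : Algebra K K' := ψ.toRingHom.toAlgebra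
  have hst : IsScalarTower ℂ K K' :=
    IsScalarTower.of_algebraMap_eq fun c => (ψ.commutes c).symm
  have hfd : FiniteDimensional K K' := finite_map hn hn'
  obtain ⟨Q, e, h⟩ := exists_above (k := ℂ) (K := K) (L := K') P
  exact ⟨Q, e, h.1, h.2⟩

end

section

variable {K : Type} [Field K] [Algebra ℂ K] {N n : ℕ} {y : Fin (N + 1) → K}

/-- the iterates of the map on the places -/
theorem lies_iter {φ : K →ₐ[ℂ] K} {im : Place ℂ K → Place ℂ K} {er : Place ℂ K → ℕ}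
    (h : ∀ Q, LiesOver φ Q (im Q) (er Q)) (k : ℕ) (Q : Place ℂ K) :
    LiesOver (φ ^ k) Q (im^[k] Q) (∏ j ∈ Finset.range k, er (im^[j] Q)) := by
  induction k with
  | zero =>
    refine ⟨by simp, fun f => ?_⟩
    simp
  | succ k ih =>
    rw [Finset.prod_range_succ, Function.iterate_succ_apply']
    have h1 := h (im^[k] Q)
    refine ⟨Nat.mul_pos ih.1 h1.1, fun f => ?_⟩
    have e1 : (φ ^ (k + 1)) f = (φ ^ k) (φ f) := by
      rw [pow_succ]
      rfl
    rw [e1, ih.2, h1.2]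
    push_cast
    ring

/-- the growth of the ramification -/
theorem ram_growth {Δ : Place ℂ K → ℚ} {im : Place ℂ K → Place ℂ K} {er : Place ℂ K → ℕ}
    (h1 : ∀ Q, 1 ≤ er Q) (him : ∀ Q, IsPrimeDivisor y Q → IsPrimeDivisor y (im Q))
    (hge : ∀ Q, IsPrimeDivisor y Q → 1 - Δ Q ≤ er Q * (1 - Δ (im Q)))
    {Q₀ : Place ℂ K} {ρ : ℚ} (hρ : 0 ≤ ρ) (hQ₀ : 1 - Δ Q₀ + ρ ≤ er Q₀ * (1 - Δ (im Q₀)))
    [DecidableEq (Place ℂ K)] (k : ℕ) (Q : Place ℂ K) (hQ : IsPrimeDivisor y Q) :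
    1 - Δ Q + ρ * ((Finset.range k).filter fun j => im^[j] Q = Q₀).card ≤
      ((∏ j ∈ Finset.range k, er (im^[j] Q) : ℕ) : ℚ) * (1 - Δ (im^[k] Q)) := by
  induction k with
  | zero => simp
  | succ k ih =>
    have hp : ∀ k, IsPrimeDivisor y (im^[k] Q) := by
      intro k
      induction k with
      | zero => exact hQ
      | succ k ih =>
        rw [Function.iterate_succ_apply']
        exact him _ ih
    obtain ⟨E, hE⟩ : ∃ E : ℕ, E = ∏ j ∈ Finset.range k, er (im^[j] Q) := ⟨_, rfl⟩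
    rw [← hE] at ih
    have hE1 : (1 : ℚ) ≤ E := by
      have : 1 ≤ E := by
        rw [hE]
        exact Finset.prod_pos (f := fun j => er (im^[j] Q)) fun j _ => h1 _
      exact_mod_cast this
    rw [Finset.prod_range_succ, Function.iterate_succ_apply', ← hE, Finset.range_add_one,
      Finset.filter_insert]
    push_cast
    split_ifs with hk
    · rw [Finset.card_insert_of_notMem (by simp), hk]
      rw [hk] at ih
      push_cast
      have h2 := mul_le_mul_of_nonneg_left hQ₀ (zero_le_one.trans hE1)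
      have h3 := mul_le_mul_of_nonneg_right hE1 hρ
      nlinarith
    · have h2 := mul_le_mul_of_nonneg_left (hge _ (hp k)) (zero_le_one.trans hE1)
      nlinarith

/-- **Self-maps which are finite in codimension one** preserve `K_X + Δ`, if it is
pseudo-effective. -/
theorem crep_of_fin (hy : NormalModel y) (hn : Algebra.trdeg ℂ K = n) (hn0 : 0 < n)
    {Δ : Place ℂ K → ℚ} (hΔ : {P | IsPrimeDivisor y P ∧ Δ P ≠ 0}.Finite) {φ : K →ₐ[ℂ] K}
    (hφ : ∀ (Q P : Place ℂ K) (e : ℕ), LiesOver φ Q P e →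
      (IsPrimeDivisor y Q ↔ IsPrimeDivisor y P) ∧
      (IsPrimeDivisor y Q → 1 - Δ Q ≤ e * (1 - Δ P)))
    {A₀ : Place ℂ K → ℚ} (hA₀ : Effective y A₀)
    (hseq : ∀ t : ℝ, 0 < t → ∃ m b : ℕ, 1 ≤ m ∧ (b : ℝ) ≤ t * m ∧
      ∃ ω : (Fin n → Derivation ℂ K K) → K, ω ≠ 0 ∧ IsSection y n m (m • Δ + b • A₀) ω) :
    ∀ (Q P : Place ℂ K) (e : ℕ), LiesOver φ Q P e → IsPrimeDivisor y Q →
      e * (1 - Δ P) ≤ 1 - Δ Q := by
  classical
  have hess := hy.ess
  obtain ⟨x, E, hx, hE⟩ := exists_crd hn (k := ℂ) (K := K)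
  have hfr : IsFrame E := fun F => ⟨fun j => F (x j),
    (Pool.Agent.W73.PG.PULL.expand x hx E hE F).symm⟩
  obtain ⟨c, hcfin, hc⟩ := exists_ordc hy hn hx hE
  have hc' : IsDisc y E c := hc
  intro Q₀ P₀ e₀ hov₀ hQ₀
  by_contra hcon
  push Not at hcon
  choose im er hier using fun Q => below hess hn φ Q
  choose up' eu hup using fun P => above_map hn hess hn φ P
  obtain ⟨rfl, rfl⟩ := lies_unique hov₀ (hier Q₀)
  obtain ⟨ρ, hρ⟩ : ∃ ρ : ℚ, ρ = er Q₀ * (1 - Δ (im Q₀)) - (1 - Δ Q₀) := ⟨_, rfl⟩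
  have hρ0 : 0 < ρ := by
    rw [hρ]
    linarith
  have h1 : ∀ Q, 1 ≤ er Q := fun Q => (hier Q).1
  have him : ∀ Q, IsPrimeDivisor y Q → IsPrimeDivisor y (im Q) := fun Q hQ =>
    (hφ Q _ _ (hier Q)).1.1 hQ
  have hge : ∀ Q, IsPrimeDivisor y Q → 1 - Δ Q ≤ er Q * (1 - Δ (im Q)) := fun Q hQ =>
    (hφ Q _ _ (hier Q)).2 hQ
  have himup : ∀ P, im (up' P) = P := fun P => (lies_unique (hier (up' P)) (hup P)).1
  have hupp : ∀ i : ℕ, IsPrimeDivisor y (up'^[i] Q₀) ∧ im^[i] (up'^[i] Q₀) = Q₀ := by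
    intro i
    induction i with
    | zero => exact ⟨hQ₀, rfl⟩
    | succ i ih =>
      rw [Function.iterate_succ_apply' up']
      refine ⟨(hφ _ _ _ (hup _)).1.2 ih.1, ?_⟩
      rw [Function.iterate_succ_apply, himup]
      exact ih.2
  obtain ⟨C, hC⟩ := zeros_bd hy hn hn0 hcfin hΔ
  obtain ⟨k, hk⟩ := exists_nat_gt (C / ρ)
  rw [div_lt_iff₀ hρ0] at hk
  obtain ⟨T, hT⟩ : ∃ T : Finset (Place ℂ K), T = (Finset.range k).image fun i => up'^[i] Q₀ :=
    ⟨_, rfl⟩
  obtain ⟨a, ha⟩ : ∃ a : Place ℂ K → ℚ, ∀ Q, a Q =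
      ρ * ((Finset.range k).filter fun j => im^[j] Q = Q₀).card := ⟨_, fun _ => rfl⟩
  have hTP : ∀ P ∈ T, IsPrimeDivisor y P := by
    intro P hP
    rw [hT, Finset.mem_image] at hP
    obtain ⟨i, -, rfl⟩ := hP
    exact (hupp i).1
  have ha0 : ∀ P, 0 ≤ a P := by
    intro P
    rw [ha]
    positivity
  have hsum : ρ * k ≤ ∑ P ∈ T, a P := by
    have e1 : k = ∑ P ∈ T, ((Finset.range k).filter fun j => up'^[j] Q₀ = P).card := by
      rw [hT, ← Finset.card_eq_sum_card_image, Finset.card_range]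
    have e2 : (k : ℚ) = ∑ P ∈ T, (((Finset.range k).filter fun j => up'^[j] Q₀ = P).card : ℚ) := by
      exact_mod_cast e1
    rw [e2, Finset.mul_sum]
    refine Finset.sum_le_sum fun P _ => ?_
    rw [ha]
    refine mul_le_mul_of_nonneg_left ?_ hρ0.le
    rw [Nat.cast_le]
    refine Finset.card_le_card fun j hj => ?_
    rw [Finset.mem_filter] at hj ⊢
    refine ⟨hj.1, ?_⟩
    rw [← hj.2]
    exact (hupp j).2
  obtain ⟨Δ'', hΔ''⟩ : ∃ Δ'' : Place ℂ K → ℚ, ∀ P, Δ'' P = Δ P - a P := ⟨_, fun _ => rfl⟩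
  obtain ⟨J, hJ, A', hA', hpull⟩ := pull_key hy hy hn hn hA₀ (Δ := Δ) (Δ' := Δ'') (φ ^ k)
    (fun Q hQ P e hov => by
      obtain ⟨rfl, rfl⟩ := lies_unique hov (lies_iter hier k Q)
      have hp : ∀ k, IsPrimeDivisor y (im^[k] Q) := by
        intro k
        induction k with
        | zero => exact hQ
        | succ k ih =>
          rw [Function.iterate_succ_apply']
          exact him _ ih
      refine ⟨1 - Δ (im^[k] Q), Or.inl ⟨hp k, le_rfl⟩, ?_⟩
      have h2 := ram_growth (y := y) h1 him hge hρ0.le (Q₀ := Q₀) (by rw [hρ]; linarith) k Q hQ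
      rw [hΔ'', ha]
      linarith) hx hE hfr hfr hc' hc'
  have h2 := hC T a hTP (fun P _ => ha0 P) A' hA' Δ'' (fun P _ => by rw [hΔ''])
    (fun P _ => by rw [hΔ'']; have := ha0 P; linarith) (by
      intro t ht
      obtain ⟨m, b, hm, hb, ω, hω0, hω⟩ := hseq t ht
      refine ⟨m, b, hm, hb, J ^ m * (φ ^ k) (ω E), ?_, hpull m b hm _
        ((isSection_iff hc' hω.1).1 hω)⟩
      refine mul_ne_zero (pow_ne_zero _ hJ) ?_
      rw [Ne, map_eq_zero]
      exact fun h0 => hω0 (pluri_zero hfr hω.1 h0))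
  have h3 := hsum.trans h2
  rw [mul_comm] at h3
  exact absurd hk (not_lt.2 h3)

end

end Pool.Agent.Helper45M.TR
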