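import Pool.Agent.Helper45M.TR.Fin

/-!
The plateau theorem for self-maps which are finite in codimension one.
-/

set_option autoImplicit false
set_option linter.overlappingInstances false
set_option linter.unusedSectionVars false

open FF Module MvPolynomial Pool.Agent.W602.GT Pool.Agent.W603.LV
open Pool.Agent.Y172 Pool.Agent.Y191 Pool.Agent.R887 Pool.Agent.N110
open scoped ENNReal Topology

namespace Pool.Agent.Helper45M.TR

section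

variable {K : Type} [Field K] [Algebra ℂ K] {N n : ℕ} {y : Fin (N + 1) → K}

/-- **The plateau theorem** for maps which are finite in codimension one. -/
theorem plateau_fin (hy : NormalModel y) (hn : Algebra.trdeg ℂ K = n) (hn0 : 0 < n)
    {Δ : Place ℂ K → ℚ}
    (hΔ : {P | IsPrimeDivisor y P ∧ Δ P ≠ 0}.Finite)
    {S : Set (K →ₐ[ℂ] K)} (h1 : ∀ φ ∈ S, FiniteCodimOne φ y Δ)
    {C₁ : ℕ} (hC₁ : ∀ φ ∈ S, selfDegree φ y n 1 ≤ C₁) {ν : ℕ} (hν : ν ≤ n)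
    (hnum : ¬ NumDimLt y n Δ ν) :
    ∃ j, j + ν ≤ n ∧ ∀ a ≤ ν, ∀ p ≤ n, selfJointDegree S y n p ≤ selfJointDegree S y n (j + a) := by
  classical
  obtain ⟨A₀, hA₀, hseq⟩ : ∃ A₀, Effective y A₀ ∧ ∀ t : ℝ, 0 < t → ∃ m b : ℕ, 1 ≤ m ∧
      (b : ℝ) ≤ t * m ∧ ∃ ω : (Fin n → Derivation ℂ K K) → K, ω ≠ 0 ∧
        IsSection y n m (m • Δ + b • A₀) ω := by
    have hnum' := hnum
    unfold NumDimLt at hnum'
    push Not at hnum'
    obtain ⟨A0, hA0, ε, hε, hseq⟩ := hnum'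
    refine ⟨A0, hA0, fun t ht => ?_⟩
    obtain ⟨m, b, hm, hb, u, hu, ω, E', hω, hω0, hlt⟩ := hseq t ht 1
    exact ⟨m, b, hm, hb, ω 0, fun h0 => hω0 (by rw [h0]; rfl), hω 0⟩
  have hcr : ∀ φ ∈ S, ∀ (Q P : Place ℂ K) (e : ℕ), LiesOver φ Q P e → IsPrimeDivisor y Q →
      e * (1 - Δ P) ≤ 1 - Δ Q := fun φ hφ => crep_of_fin hy hn hn0 hΔ (h1 φ hφ) hA₀ hseq
  refine pplateau hy hn hΔ (fun φ hφ Q hQ P e hov => ?_) (fun φ hφ P hP Q e hov => ?_) hC₁ hν hnum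
  · have h2 := h1 φ hφ Q P e hov
    exact ⟨1 - Δ P, Or.inl ⟨h2.1.1 hQ, le_rfl⟩, h2.2 hQ⟩
  · have h2 := h1 φ hφ Q P e hov
    have hQ := h2.1.2 hP
    exact ⟨1 - Δ Q, Or.inl ⟨hQ, le_rfl⟩, hcr φ hφ Q P e hov hQ⟩

end

end Pool.Agent.Helper45M.TR
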