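import Pool.Agent.Helper45M.TR.Trace

/-!
Traces of sections in finite extensions.
-/

set_option autoImplicit false
set_option linter.overlappingInstances false
set_option linter.unusedSectionVars false

open FF Module MvPolynomial Pool.Agent.W602.GT Pool.Agent.W603.LV
open Pool.Agent.Y172 Pool.Agent.Y191 Pool.Agent.R887 Pool.Agent.W619.PQ Pool.Agent.N110

namespace Pool.Agent.Helper45M.TR

section

variable {K K' : Type} [Field K] [Algebra ℂ K] [Field K'] [Algebra ℂ K'] [Algebra K K']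
  [IsScalarTower ℂ K K'] [FiniteDimensional K K'] {N N' n : ℕ}
  {y : Fin (N + 1) → K} {y' : Fin (N' + 1) → K'}

theorem finite_ord' (hy : NormalModel y) (f : K) :
    {P : Place ℂ K | IsPrimeDivisor y P ∧ P.ord f ≠ 0}.Finite := by
  by_cases hf : f = 0
  · refine Set.finite_empty.subset ?_
    rintro P ⟨-, h⟩
    rw [hf, P.ord_zero] at h
    exact h rfl
  · exact finite_ord hy hf

/-- **Traces of sections.** -/
theorem push_trace (hy : NormalModel y) (hy' : NormalModel y') (hn : Algebra.trdeg ℂ K = n)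
    (hn' : Algebra.trdeg ℂ K' = n) {Δ : Place ℂ K → ℚ}
    (hΔ : {P | IsPrimeDivisor y P ∧ Δ P ≠ 0}.Finite) {Δ' A' : Place ℂ K' → ℚ}
    (hA' : Effective y' A')
    (hψ : ∀ P : Place ℂ K, IsPrimeDivisor y P → ∀ (Q : Place ℂ K') (e : ℕ), Over Q P e →
      ∃ α : ℚ, LogDisc y' n Δ' Q α ∧ e * (1 - Δ P) ≤ α)
    {x : Fin n → K} {E : Fin n → Derivation ℂ K K} (hx : IsTranscendenceBasis ℂ x)
    (hE : ∀ i j, E i (x j) = if i = j then 1 else 0) {c : Place ℂ K → ℤ} (hc : IsDisc y E c)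
    {x' : Fin n → K'} {E' : Fin n → Derivation ℂ K' K'}
    (hE' : ∀ i j, E' i (x' j) = if i = j then 1 else 0) (hfr' : IsFrame E')
    {c' : Place ℂ K' → ℤ} (hc' : IsDisc y' E' c')
    {EL : Fin n → Derivation ℂ K' K'}
    (hEL : ∀ i f, EL i (algebraMap K K' f) = algebraMap K K' (E i f)) (h : K') :
    ∃ A : Place ℂ K → ℚ, Effective y A ∧ ∀ m b : ℕ, 1 ≤ m → 1 ≤ b →
      ∀ g ∈ Lsp y' c' m (m • Δ' + b • A'),
        Algebra.trace K K' (h * ((Matrix.of fun i j => EL i (x' j)).det ^ m * g)) ∈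
          Lsp y c m (m • Δ + b • A) := by
  classical
  have hess := hy.ess
  have hess' := hy'.ess
  choose s hsc hs0 hs using fun j => disc_bound2 (Δ := Δ') (n := n) hy' hA' hfr' j
  choose T hT using fun j => abs_over (K := K) (s j)
  obtain ⟨Th, hTh⟩ := abs_over (K := K) h
  refine ⟨fun P => ((∑ j, ∑ a ∈ T j, |P.ord a| : ℤ) : ℚ) + ((∑ a ∈ Th, |P.ord a| : ℤ) : ℚ) +
    if Δ P = 0 then 0 else 1, ⟨fun P _ => ?_, ?_⟩, fun m b hm hb g hg P hP => ?_⟩
  · have h1 : (0 : ℤ) ≤ ∑ j, ∑ a ∈ T j, |P.ord a| :=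
      Finset.sum_nonneg fun _ _ => Finset.sum_nonneg fun _ _ => abs_nonneg _
    have h2 : (0 : ℤ) ≤ ∑ a ∈ Th, |P.ord a| := Finset.sum_nonneg fun _ _ => abs_nonneg _
    have h1' : (0 : ℚ) ≤ ((∑ j, ∑ a ∈ T j, |P.ord a| : ℤ) : ℚ) := by exact_mod_cast h1
    have h2' : (0 : ℚ) ≤ ((∑ a ∈ Th, |P.ord a| : ℤ) : ℚ) := by exact_mod_cast h2
    have h3 : (0 : ℚ) ≤ if Δ P = 0 then 0 else 1 := by split_ifs <;> norm_num
    linarith
  · have hfin1 : (⋃ j, ⋃ a ∈ T j, {P : Place ℂ K | IsPrimeDivisor y P ∧ P.ord a ≠ 0}).Finite :=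
      Set.finite_iUnion fun j => (T j).finite_toSet.biUnion fun a _ => finite_ord' hy a
    have hfin2 : (⋃ a ∈ Th, {P : Place ℂ K | IsPrimeDivisor y P ∧ P.ord a ≠ 0}).Finite :=
      Th.finite_toSet.biUnion fun a _ => finite_ord' hy a
    refine ((hfin1.union hfin2).union hΔ).subset ?_
    rintro P ⟨hP, h0⟩
    by_contra hcon
    apply h0
    simp only [Set.mem_union, Set.mem_iUnion, Set.mem_setOf_eq, not_or, not_exists, not_and,
      not_not] at hcon
    obtain ⟨⟨h1, h2⟩, h3⟩ := hcon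
    have e1 : ∑ j, ∑ a ∈ T j, |P.ord a| = 0 :=
      Finset.sum_eq_zero fun j _ => Finset.sum_eq_zero fun a ha => by
        rw [h1 j a ha hP, abs_zero]
    have e2 : ∑ a ∈ Th, |P.ord a| = 0 := Finset.sum_eq_zero fun a ha => by
      rw [h2 a ha hP, abs_zero]
    beta_reduce
    rw [e1, e2, if_pos (h3 hP)]
    norm_num
  -- the estimate
  by_cases ht0 : Algebra.trace K K' (h * ((Matrix.of fun i j => EL i (x' j)).det ^ m * g)) = 0
  · exact Or.inl ht0
  right
  obtain ⟨Ms, hMs⟩ : ∃ Ms : ℤ, Ms = ∑ j, ∑ a ∈ T j, |P.ord a| := ⟨_, rfl⟩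
  obtain ⟨Mh, hMh⟩ : ∃ Mh : ℤ, Mh = ∑ a ∈ Th, |P.ord a| := ⟨_, rfl⟩
  have hMh0 : 0 ≤ Mh := by rw [hMh]; exact Finset.sum_nonneg fun _ _ => abs_nonneg _
  have hPd : Divisorial n P := hP.divisorial hy hn
  obtain ⟨yP, EP, i0, hl⟩ := exists_loc hn hPd
  choose EP' hEP' using fun i => exists_lift (L := K') hn (EP i)
  obtain ⟨B, hB⟩ : ∃ B : Matrix (Fin n) (Fin n) K, B = Matrix.of fun i j => E i (yP j) :=
    ⟨_, rfl⟩
  have hB0 : B.det ≠ 0 := by
    intro h0
    have h1 : (Matrix.of fun i j => EP i (yP j) : Matrix (Fin n) (Fin n) K).det =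
        (Matrix.of fun i j => EP i (x j) : Matrix (Fin n) (Fin n) K).det * B.det := by
      rw [← Matrix.det_mul]
      congr 1
      ext i j
      rw [Matrix.of_apply, Matrix.mul_apply, hB]
      have h1 := Pool.Agent.W73.PG.PULL.expand x hx E hE (EP i)
      conv_lhs => rw [← h1]
      rw [sum_smul_apply]
      rfl
    have h2 : (Matrix.of fun i j => EP i (yP j) : Matrix (Fin n) (Fin n) K) = 1 := by
      ext i j
      rw [Matrix.of_apply, hl.dual, Matrix.one_apply]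
    rw [h2, Matrix.det_one, h0, mul_zero] at h1
    exact one_ne_zero h1
  -- the discrepancy of the frame
  have hcB : -(P.ord B.det) ≤ c P := by
    have h1 : OrdGe P (frm yP 1 (1 : K)) 0 := by
      intro D hD
      have h9 : Ge P 0 (Matrix.of fun i j => D i (yP j) : Matrix (Fin n) (Fin n) K).det :=
        ge_det P _ _ (fun _ _ => 0) (fun a b => hD a _ (hl.reg b)) fun σ => by simp
      unfold frm
      rw [pow_one, mul_one]
      exact h9.imp_right fun h => by exact_mod_cast h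
    have h2 := (hc P hP 1 (frm yP 1 (1 : K)) (frm_pluri yP 1 1) 0).1 h1
    have h3 : frm yP 1 (1 : K) E = B.det := by
      unfold frm
      rw [pow_one, mul_one, hB]
    rw [h3] at h2
    have h4 := h2.resolve_left hB0
    have h5 : (0 : ℤ) ≤ c P + P.ord B.det := by
      have h6 : (0 : ℚ) ≤ ((c P + P.ord B.det : ℤ) : ℚ) := by
        push_cast
        push_cast at h4
        linarith
      exact_mod_cast h6
    linarith
  -- the form
  have hω := frm_pluri (n := n) x' m g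
  have hωE : frm x' m g E' = g := frm_self hE' m g
  have hsec : IsSection y' n m (m • Δ' + b • A') (frm x' m g) := by
    rw [isSection_iff hc' hω, hωE]
    exact hg
  have hWEL : frm x' m g EL = (Matrix.of fun i j => EL i (x' j)).det ^ m * g := rfl
  have hWB : frm x' m g EL = algebraMap K K' B.det ^ m * frm x' m g EP' := by
    have h1 := pluri_coord (hl.bas.algebraMap_comp (A := K')) (lift_dual hl.dual hEP') hω EL
    rw [h1]
    congr 2
    rw [hB, RingHom.map_det]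
    congr 1
    ext i j
    rw [Matrix.of_apply, RingHom.mapMatrix_apply, Matrix.map_apply, Matrix.of_apply]
    exact hEL i (yP j)
  obtain ⟨k, hk⟩ : ∃ k : ℤ, k = ⌊(m : ℚ) * P.ord B.det - m * Δ P⌋ - b * Ms - Mh := ⟨_, rfl⟩
  have hkey : Ge P k (Algebra.trace K K'
      (h * ((Matrix.of fun i j => EL i (x' j)).det ^ m * g))) := by
    refine trace_ge P _ k fun Q e hQ => ?_
    rw [← hWEL, hWB]
    by_cases h0 : h = 0
    · left
      rw [h0, zero_mul]
    by_cases h1 : frm x' m g EP' = 0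
    · left
      rw [h1, mul_zero, mul_zero]
    right
    obtain ⟨α, hα, hα1⟩ := hψ P hP Q e hQ
    obtain ⟨j, hj⟩ := exists_centred hy' Q
    have h2 := hs j Q hj α hα m b hm _ hsec
    have hQd : Divisorial n Q := divisorial_up hQ hPd
    have h3 := down_ge hn' hQ hQd hl hEP' hω (c := ((m * (α - 1) - b * (Q.ord (s j) : ℤ) : ℚ) : ℝ))
      (fun G hG => (h2 G hG).imp_right fun h => by exact_mod_cast h)
    have h4 := h3.resolve_left h1
    have h5 : (m * (α - 1) - b * (Q.ord (s j) : ℤ) : ℚ) + m - e * m ≤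
        (Q.ord (frm x' m g EP') : ℚ) := by exact_mod_cast h4
    have hBK : algebraMap K K' B.det ≠ 0 := by rwa [Ne, map_eq_zero]
    rw [Q.ord_mul h0 (mul_ne_zero (pow_ne_zero _ hBK) h1), Q.ord_mul (pow_ne_zero _ hBK) h1,
      Q.ord_pow, hQ.2]
    have h6 := (abs_le.1 (hTh P Q e hQ)).1
    rw [← hMh] at h6
    have h7 := (abs_le.1 (hT j P Q e hQ)).2
    have h8 : ∑ a ∈ T j, |P.ord a| ≤ Ms := by
      rw [hMs]
      exact Finset.single_le_sum (f := fun j => ∑ a ∈ T j, |P.ord a|)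
        (fun _ _ => Finset.sum_nonneg fun _ _ => abs_nonneg _) (Finset.mem_univ j)
    have he : (0 : ℚ) ≤ e := Nat.cast_nonneg _
    have hm0 : (0 : ℚ) ≤ m := Nat.cast_nonneg _
    have hb0 : (0 : ℚ) ≤ b := Nat.cast_nonneg _
    have h6' : -(e * Mh : ℚ) ≤ (Q.ord h : ℚ) := by exact_mod_cast h6
    have h7' : (Q.ord (s j) : ℚ) ≤ e * Ms := by
      have h9 : (Q.ord (s j) : ℚ) ≤ e * ((∑ a ∈ T j, |P.ord a| : ℤ) : ℚ) := by exact_mod_cast h7
      have h10 : ((∑ a ∈ T j, |P.ord a| : ℤ) : ℚ) ≤ Ms := by exact_mod_cast h8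
      exact h9.trans (mul_le_mul_of_nonneg_left h10 he)
    have h11 := Int.floor_le ((m : ℚ) * P.ord B.det - m * Δ P)
    have h12 : (k : ℚ) ≤ (m : ℚ) * P.ord B.det - m * Δ P - b * Ms - Mh := by
      rw [hk]
      push_cast
      linarith
    have h13 := mul_le_mul_of_nonneg_left h12 he
    have h14 := mul_le_mul_of_nonneg_left hα1 hm0
    have h15 := mul_le_mul_of_nonneg_left h7' hb0
    have h16 : ((e * k : ℤ) : ℚ) ≤
        ((Q.ord h + (m * (e * P.ord B.det) + Q.ord (frm x' m g EP')) : ℤ) : ℚ) := by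
      push_cast
      nlinarith
    exact_mod_cast h16
  have h1 := hkey.resolve_left ht0
  have h2 : (k : ℚ) ≤ (P.ord (Algebra.trace K K'
      (h * ((Matrix.of fun i j => EL i (x' j)).det ^ m * g))) : ℚ) := by exact_mod_cast h1
  have h3 : -(P.ord B.det : ℚ) ≤ c P := by exact_mod_cast hcB
  have hm0 : (0 : ℚ) ≤ m := Nat.cast_nonneg _
  have hb1 : (1 : ℚ) ≤ b := by exact_mod_cast hb
  have h4 := mul_le_mul_of_nonneg_left h3 hm0
  have h5 : (m : ℚ) * P.ord B.det - m * Δ P - (if Δ P = 0 then 0 else 1) ≤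
      ⌊(m : ℚ) * P.ord B.det - m * Δ P⌋ := by
    split_ifs with h6
    · rw [h6, mul_zero, sub_zero, sub_zero]
      have h7 : (m : ℚ) * P.ord B.det = ((m * P.ord B.det : ℤ) : ℚ) := by push_cast; ring
      rw [h7, Int.floor_intCast]
    · have := Int.lt_floor_add_one ((m : ℚ) * P.ord B.det - m * Δ P)
      linarith
  have h6 : (0 : ℚ) ≤ if Δ P = 0 then (0 : ℚ) else 1 := by split_ifs <;> norm_num
  have h7 : (0 : ℚ) ≤ Mh := by exact_mod_cast hMh0
  have h8 : (Mh : ℚ) ≤ b * Mh := le_mul_of_one_le_left h7 hb1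
  have h9 := mul_le_mul_of_nonneg_right hb1 h6
  rw [Pi.add_apply, Pi.smul_apply, Pi.smul_apply, nsmul_eq_mul, nsmul_eq_mul]
  rw [← hMs, ← hMh]
  rw [hk] at h2
  push_cast at h2
  rw [one_mul] at h9
  nlinarith

end

end Pool.Agent.Helper45M.TR
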