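import Pool.Agent.Helper45M.TR.SG

/-!
**The rank theorem** for commuting dominant rational self-maps which preserve `K_X + Δ`, not
necessarily nef.
-/

set_option autoImplicit false
set_option linter.overlappingInstances false
set_option linter.unusedSectionVars false

open Filter Topology FF Module
open Pool.Agent.W602.GT Pool.Agent.W603.LV Pool.Agent.Y172 Pool.Agent.Y191 Pool.Agent.R887
open Pool.Agent.N110.RK Pool.Agent.N110.SE Pool.Agent.N110 Pool.Agent.W619.PQ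
open scoped ENNReal

namespace Pool.Agent.Helper45M.TR

section

variable {K : Type} [Field K] [Algebra ℂ K] {N n : ℕ} {y : Fin (N + 1) → K}

/-- maps which are finite in codimension one preserve pseudo-effective divisors `K_X + Δ` -/
theorem crep_all (hy : NormalModel y) (hn : Algebra.trdeg ℂ K = n) (hn0 : 0 < n)
    {Δ : Place ℂ K → ℚ} (hΔ : {P | IsPrimeDivisor y P ∧ Δ P ≠ 0}.Finite) {ν : ℕ}
    (hnum : ¬ NumDimLt y n Δ ν) {φ : K →ₐ[ℂ] K} (h1 : FiniteCodimOne φ y Δ) :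
    SelfPullLe φ y n Δ ∧ SelfPushLe φ y n Δ := by
  obtain ⟨A₀, hA₀, hseq⟩ : ∃ A₀, Effective y A₀ ∧ ∀ t : ℝ, 0 < t → ∃ m b : ℕ, 1 ≤ m ∧
      (b : ℝ) ≤ t * m ∧ ∃ ω : (Fin n → Derivation ℂ K K) → K, ω ≠ 0 ∧
        IsSection y n m (m • Δ + b • A₀) ω := by
    have hnum' := hnum
    unfold NumDimLt at hnum'
    push Not at hnum'
    obtain ⟨A0, hA0, ε, hε, hseq⟩ := hnum'
    refine ⟨A0, hA0, fun t ht => ?_⟩
    obtain ⟨m, b, hm, hb, u, hu, ω, E', hω, hω0, hlt⟩ := hseq t ht 1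
    exact ⟨m, b, hm, hb, ω 0, fun h0 => hω0 (by rw [h0]; rfl), hω 0⟩
  refine ⟨fun Q hQ P e hov => ?_, fun P hP Q e hov => ?_⟩
  · have h2 := h1 Q P e hov
    exact ⟨1 - Δ P, Or.inl ⟨h2.1.1 hQ, le_rfl⟩, h2.2 hQ⟩
  · have h2 := h1 Q P e hov
    have hQ := h2.1.2 hP
    exact ⟨1 - Δ Q, Or.inl ⟨hQ, le_rfl⟩, crep_of_fin hy hn hn0 hΔ h1 hA₀ hseq Q P e hov hQ⟩

/-- there are pencils which form a transcendence basis -/
theorem exists_pencils_dm (hy : NormalModel y) (hn : Algebra.trdeg ℂ K = n) :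
    ∃ w : Fin n → K, (∀ a, IsPencil y (w a)) ∧ 1 ≤ degreeOver w (fun j : Fin 0 => j.elim0) := by
  obtain ⟨i, hi⟩ := hy.ne
  have cx := ctx hy hn hi
  have hcard : (Multiset.replicate n (hcls hy hi)).card = n := Multiset.card_replicate _ _
  obtain ⟨W, hW, e⟩ := exists_max cx hcard
  have hpos := I_pos cx hcard
  rw [sel_rep] at hW
  obtain ⟨w, hw⟩ := exists_fin W hW.1
  have hwm : ∀ j, w j ∈ Submodule.span ℂ (affS y i) := by
    intro j
    have h3 : w j ∈ {x | x ∈ W} := by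
      rw [hw]
      exact ⟨j, rfl⟩
    exact hW.2 _ h3
  refine ⟨w, fun a => pencil_span hi (hwm a), ?_⟩
  have e1 : degreeOver w (fun j : Fin 0 => j.elim0) = dm ℂ (W + 0) := by
    refine deg_dm ?_ ?_
    · rw [hw]
    · ext z
      simp
  rw [e1, add_zero, e]
  exact hpos

/-- the inequality `ν < 0` means that the divisor is not pseudo-effective -/
theorem no_sections (hy : NormalModel y) (hn : Algebra.trdeg ℂ K = n) {Δ : Place ℂ K → ℚ}
    (h : NumDimLt y n Δ 0) {A : Place ℂ K → ℚ} (hA : Effective y A) : ∃ t : ℝ, 0 < t ∧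
      ∃ m₀ : ℕ, ∀ m b : ℕ, m₀ ≤ m → (b : ℝ) ≤ t * m → ∀ (ω : (Fin n → Derivation ℂ K K) → K)
        (E : Fin n → Derivation ℂ K K), IsSection y n m (m • Δ + b • A) ω → ω E = 0 := by
  obtain ⟨w, hw, hw1⟩ := exists_pencils_dm hy hn
  obtain ⟨t, ht, m₀, h1⟩ := h A hA (1 / 2) (by norm_num)
  refine ⟨t, ht, m₀, fun m b hm hb ω E hω => ?_⟩
  by_contra h0
  have h2 := h1 m b hm hb w hw (fun _ => ω) E (fun _ => hω) h0
  have e1 : (fun i : Fin 0 => (fun _ : Fin 1 => ω) i.succ E / (fun _ : Fin 1 => ω) 0 E) =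
      (fun j : Fin 0 => j.elim0) := by
    funext j
    exact j.elim0
  have h3 : (degreeOver w (fun j : Fin 0 => (j.elim0 : K)) : ℝ) ≤ 1 / 2 * m ^ 0 := by
    rw [← e1]
    exact h2
  have h4 : (1 : ℝ) ≤ degreeOver w (fun j : Fin 0 => (j.elim0 : K)) := by exact_mod_cast hw1
  rw [pow_zero, mul_one] at h3
  linarith

theorem lt_of_lt_zero (hy : NormalModel y) (hn : Algebra.trdeg ℂ K = n) {Δ : Place ℂ K → ℚ}
    (h : NumDimLt y n Δ 0) (j : ℕ) : NumDimLt y n Δ j := by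
  intro A hA ε hε
  obtain ⟨t, ht, m₀, h1⟩ := no_sections hy hn h hA
  refine ⟨t, ht, m₀, fun m b hm hb u hu ω E hω h0 => ?_⟩
  exact absurd (h1 m b hm hb (ω 0) E (hω 0)) h0

/-- pseudo-effective divisors have numerical dimension at least zero -/
theorem not_lt_zero (hy : NormalModel y) (hn : Algebra.trdeg ℂ K = n) {Δ : Place ℂ K → ℚ}
    (hpsef : LogPsef y n Δ) : ¬ NumDimLt y n Δ 0 := by
  intro h
  obtain ⟨i, hi⟩ := hy.ne
  obtain ⟨x, E, hx, hE⟩ := exists_crd hn (k := ℂ) (K := K)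
  have hfr : IsFrame E := fun F => ⟨fun j => F (x j),
    (Pool.Agent.W73.PG.PULL.expand x hx E hE F).symm⟩
  obtain ⟨Hy, hHy, hHP⟩ := exists_hyp hy hi
  obtain ⟨t, ht, m₀, h1⟩ := no_sections hy hn h hHy
  obtain ⟨q₀, hq₀⟩ := exists_nat_gt (1 / t)
  obtain ⟨q, hq⟩ : ∃ q, q = max m₀ q₀ + 1 := ⟨_, rfl⟩
  obtain ⟨M, hM, ω, hω0, hω⟩ := hpsef i hi q (by omega)
  have hsec : IsSection y n (M * q) ((M * q) • Δ + M • Hy) ω := by
    refine ⟨hω.1, fun P hP => ?_⟩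
    obtain ⟨l', hl'⟩ := exists_centred hy P
    have h2 := hω.2 P l' hP hl'
    rw [← hHP P l' hP hl'] at h2
    rw [Pi.add_apply, Pi.smul_apply, Pi.smul_apply, nsmul_eq_mul, nsmul_eq_mul, neg_add,
      ← sub_eq_add_neg]
    exact h2
  have hq1 : m₀ ≤ q := by rw [hq]; exact (le_max_left _ _).trans (Nat.le_succ _)
  have hq2 : (q₀ : ℝ) ≤ q := by
    rw [hq]
    exact_mod_cast (le_max_right _ _).trans (Nat.le_succ _)
  have hM' : (1 : ℝ) ≤ M := by exact_mod_cast hM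
  have h3 : m₀ ≤ M * q := by nlinarith
  have h4 : ((M : ℕ) : ℝ) ≤ t * ((M * q : ℕ) : ℝ) := by
    rw [div_lt_iff₀ ht] at hq₀
    push_cast
    have h4 : 1 ≤ (q : ℝ) * t := by nlinarith
    nlinarith
  exact hω0 (pluri_zero hfr hω.1 (h1 (M * q) M h3 h4 ω E hsec))

/-- the directions of subexponential growth -/
theorem push_space (hy : NormalModel y)
    (hn : Algebra.trdeg ℂ K = n) (hn0 : 0 < n) {Δ : Place ℂ K → ℚ}
    (hΔ : {P | IsPrimeDivisor y P ∧ Δ P ≠ 0}.Finite) {r : ℕ}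
    {φ : (Fin r → ℕ) → (K →ₐ[ℂ] K)} (hφ : ∀ u v, φ (u + v) = φ u * φ v)
    (h1 : ∀ v, SelfPullLe (φ v) y n Δ) (h2 : ∀ v, SelfPushLe (φ v) y n Δ)
    {ν : ℕ} (hν : ν ≤ n) (hnum : ¬ NumDimLt y n Δ ν) :
    ∃ W : Submodule ℝ (Fin r → ℝ), r + ν ≤ finrank ℝ W + n ∧ ∀ w ∈ W, CorrSubexp φ y n w := by
  obtain ⟨i, hi⟩ := hy.ne
  obtain ⟨m, M, c, ε, h⟩ := sys_push hy hn hn0 hi hΔ hφ h1 h2 hν hnum
  obtain ⟨W, hW1, hW2⟩ := semi_rank stmSJ h
  refine ⟨W, hW1, fun w hw δ hδ => ?_⟩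
  obtain ⟨B, hB⟩ := hW2 w hw δ hδ
  refine ⟨B, fun l v hv => (stmSD hy hn hn0 hi v).trans (ENNReal.ofReal_le_ofReal ?_)⟩
  refine le_trans (le_of_eq ?_) (hB l v hv)
  have hs : (Multiset.replicate n (hcls hy hi)).card = n := Multiset.card_replicate _ _
  have h1 := h.inv (ng v) (Multiset.replicate n (hcls hy hi)) hs
  have h2 := h.pos (Multiset.replicate n (hcls hy hi)) hs
  have h3 := I_emap hy hn hi (φ (ng v)) hs
  have h4 : (mapDegree (φ (ng v)) : ℝ) = Real.exp (∑ i, Real.log (mapDegree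
      (φ (Pi.single i 1)) : ℝ) * (ng v i : ℝ)) := by
    beta_reduce at h1 h2
    rw [h3] at h1
    push_cast at h1
    exact mul_right_cancel₀ h2.ne' h1
  rw [h4, Real.exp_neg, mul_comm, div_eq_mul_inv]

/-- **The rank theorem** for semigroups of commuting dominant rational self-maps. -/
theorem push_main (hy : NormalModel y)
    (hn : Algebra.trdeg ℂ K = n) (hn0 : 0 < n) {Δ : Place ℂ K → ℚ}
    (hΔ : {P | IsPrimeDivisor y P ∧ Δ P ≠ 0}.Finite) {r s : ℕ} (hs : 0 < s)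
    {φ : (Fin r → ℕ) → (K →ₐ[ℂ] K)} (hφ : ∀ u v, φ (u + v) = φ u * φ v)
    (hP : (∀ v, FiniteCodimOne (φ v) y Δ) ∨
      ∀ v, SelfPullLe (φ v) y n Δ ∧ SelfPushLe (φ v) y n Δ) (hrank : CorrRankGe φ y n s) :
    (¬ NumDimLt y n Δ 0 → s ≤ n) ∧ NumDimLt y n Δ (n - s + 1) := by
  have hP' : ∀ {ν : ℕ}, ¬ NumDimLt y n Δ ν → ∀ v, SelfPullLe (φ v) y n Δ ∧
      SelfPushLe (φ v) y n Δ := by
    intro ν hnum
    rcases hP with h | h
    · exact fun v => crep_all hy hn hn0 hΔ hnum (h v)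
    · exact h
  have hsn : ¬ NumDimLt y n Δ 0 → s ≤ n := by
    intro h0
    obtain ⟨W, hW1, hW⟩ := push_space hy hn hn0 hΔ hφ (fun v => (hP' h0 v).1)
      (fun v => (hP' h0 v).2) (Nat.zero_le n) h0
    have := hrank W hW
    omega
  refine ⟨hsn, ?_⟩
  by_cases h0 : NumDimLt y n Δ 0
  · exact lt_of_lt_zero hy hn h0 _
  · have hsn' := hsn h0
    by_contra hnum
    obtain ⟨W, hW1, hW⟩ := push_space hy hn hn0 hΔ hφ (fun v => (hP' hnum v).1)
      (fun v => (hP' hnum v).2) (by omega : n - s + 1 ≤ n) hnum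
    have h2 := hrank W hW
    omega

end

end Pool.Agent.Helper45M.TR
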