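import Pool.Agent.Helper45M.TR.Psef
import Pool.Agent.N110.SE.Fin

/-!
The geometric system of commuting dominant rational self-maps which preserve `K_X + Δ`, not
necessarily nef.
-/

set_option autoImplicit false
set_option linter.overlappingInstances false
set_option linter.unusedSectionVars false

open Filter Topology FF Module
open Pool.Agent.W602.GT Pool.Agent.W603.LV Pool.Agent.Y172 Pool.Agent.Y191 Pool.Agent.R887
open Pool.Agent.N110.RK Pool.Agent.N110.SE Pool.Agent.N110 Pool.Agent.W619.PQ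
open scoped ENNReal

namespace Pool.Agent.Helper45M.TR

section

variable {K : Type} [Field K] [Algebra ℂ K] {N n : ℕ} {y : Fin (N + 1) → K}

/-- the system of commuting dominant rational self-maps which preserve `K_X + Δ` -/
theorem sys_push (hy : NormalModel y)
    (hn : Algebra.trdeg ℂ K = n) (hn0 : 0 < n) {i : Fin (N + 1)} (hi : y i ≠ 0)
    {Δ : Place ℂ K → ℚ} (hΔ : {P | IsPrimeDivisor y P ∧ Δ P ≠ 0}.Finite)
    {r : ℕ} {φ : (Fin r → ℕ) → (K →ₐ[ℂ] K)} (hφ : ∀ u v, φ (u + v) = φ u * φ v)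
    (h1 : ∀ v, SelfPullLe (φ v) y n Δ) (h2 : ∀ v, SelfPushLe (φ v) y n Δ) {ν : ℕ} (hν : ν ≤ n)
    (hnum : ¬ NumDimLt y n Δ ν) :
    ∃ (m : ℕ → ℝ) (M : EffT y → ℕ → Cls ℂ (affS y i)) (c ε : ℝ),
      ESys n r (fun s : Multiset (Cls ℂ (affS y i)) => (I s : ℝ))
        (fun v => eCls hy hn hi (φ v))
        (fun j => Real.log (mapDegree (φ (Pi.single j 1)) : ℝ))
        (mulCls (fin_affS i) (one_affS hi)) (hcls hy hi) m M ν c ε := by
  classical
  have hess := hy.ess
  have cx := ctx hy hn hi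
  obtain ⟨x, E, hx, hE⟩ := exists_crd hn (k := ℂ) (K := K)
  have hfr : IsFrame E := fun F => ⟨fun j => F (x j),
    (Pool.Agent.W73.PG.PULL.expand x hx E hE F).symm⟩
  obtain ⟨c, hcfin, hc⟩ := exists_ordc hy hn hx hE
  have hc' : IsDisc y E c := hc
  have hP1 : ∀ v, EPulls y c Δ (φ v) := fun v => epulls_of hy hn (h1 v) hx hE hfr hc'
  have hP2 : ∀ v, EPush y c Δ (φ v) := fun v => epush_of hy hn hΔ (h2 v) hx hE hfr hc'
  obtain ⟨Hy, hHy, hHP⟩ := exists_hyp hy hi
  -- the sequence of sections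
  unfold NumDimLt at hnum
  push Not at hnum
  obtain ⟨A0, hA0, ε, hε, hseq⟩ := hnum
  have hseq' : ∀ q : ℕ, ∃ m b : ℕ, q + 1 ≤ m ∧ (b : ℝ) ≤ 1 / (q + 1) * m ∧
      ∃ g : Fin (ν + 1) → K, (∀ j, g j ∈ Lsp y c m (m • Δ + b • A0)) ∧ g 0 ≠ 0 ∧
      ∃ u : Fin (n - ν) → K, (∀ a, IsPencil y (u a)) ∧
        ε * m ^ ν < degreeOver u (fun j : Fin ν => g j.succ / g 0) := by
    intro q
    obtain ⟨m, b, hm, hb, u, hu, ω, E', hω, hω0, hlt⟩ := hseq (1 / ((q : ℝ) + 1))
      (by positivity) (q + 1)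
    refine ⟨m, b, hm, hb, fun j => ω j E, fun j => ?_, ?_, u, hu, ?_⟩
    · exact (isSection_iff hc' (hω j).1).1 (hω j)
    · exact (Pool.Agent.N110.ratio_frame hfr (hω 0).1 (hω 0).1 hω0).1
    · have e1 : (fun j : Fin ν => ω j.succ E / ω 0 E) = fun j : Fin ν => ω j.succ E' / ω 0 E' := by
        funext j
        exact ((Pool.Agent.N110.ratio_frame hfr (hω 0).1 (hω j.succ).1 hω0).2).symm
      rw [e1]
      exact hlt
  choose m b hm hb g hg hg0 u hu hdeg using hseq'
  have hm1 : ∀ q, 1 ≤ m q := fun q => by have := hm q; omega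
  obtain ⟨A₁, hA₁d⟩ : ∃ A₁ : Place ℂ K → ℚ, A₁ = A0 + Hy := ⟨_, rfl⟩
  have hA₁ : Effective y A₁ := by rw [hA₁d]; exact Effective.add' hA0 hHy
  have hmem0 : ∀ q l, g q 0 * (y l / y i) ∈ Lsp y c (m q) (m q • Δ + (b q + 1) • A₁) := by
    intro q l
    rw [hA₁d]
    exact mul_hyp hy hA0 hHy hHP hi (hg q 0) l
  have hmem : ∀ A : {A : Place ℂ K → ℚ // Effective y A}, ∀ q l,
      g q 0 * (y l / y i) ∈ Lsp y c (m q) (m q • Δ + (b q + 1) • (A₁ + A.1)) := by
    intro A q l
    refine Lsp_mono le_rfl hA₁.1 (fun P hP => ?_) (hmem0 q l)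
    have := A.2.1 P hP
    change A₁ P ≤ A₁ P + A.1 P
    linarith
  -- the spaces
  obtain ⟨M, hMV⟩ : ∃ M : {A : Place ℂ K → ℚ // Effective y A} → ℕ → Cls ℂ (affS y i), ∀ A q,
      M A q = secCls hy hi hcfin hΔ (Effective.add' hA₁ A.2) (m q) (b q + 1) (hg0 q)
        (hmem A q) := ⟨_, fun _ _ => rfl⟩
  have hMmem : ∀ A q v, v ∈ (M A q).V ↔
      g q 0 * v ∈ Lsp y c (m q) (m q • Δ + (b q + 1) • (A₁ + A.1)) := by
    intro A q v
    rw [hMV]
    rfl
  obtain ⟨β, f, hf, hdom⟩ := dom_sections hy hi hcfin hΔ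
  obtain ⟨t, ht⟩ : ∃ t : Multiset (Cls ℂ (affS y i)) → ℝ, t = fun s => (I s : ℝ) := ⟨_, rfl⟩
  have hpos : ∀ s : Multiset (Cls ℂ (affS y i)), s.card = n → 0 < t s := by
    intro s hs
    rw [ht]
    beta_reduce
    exact_mod_cast I_pos cx hs
  have hmt : Filter.Tendsto (fun q => (m q : ℝ)) Filter.atTop Filter.atTop := by
    refine Filter.tendsto_atTop_mono (fun q => ?_) tendsto_natCast_atTop_atTop
    have := hm q
    exact_mod_cast (by omega : q ≤ m q)
  -- the degrees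
  have hφ0 : ∀ z, φ 0 z = z := by
    intro z
    have h1 := hφ 0 0
    rw [add_zero] at h1
    have h2 : φ 0 z = φ 0 (φ 0 z) := by
      conv_lhs => rw [h1]
      rfl
    exact ((φ 0).toRingHom.injective h2).symm
  have hφ0' : φ 0 = 1 := by
    ext z
    exact hφ0 z
  have hdpos : ∀ u, (0 : ℝ) < (mapDegree (φ u) : ℝ) := fun u => by
    exact_mod_cast mapDegree_pos hess hn (φ u)
  have hI : ∀ u (s : Multiset (Cls ℂ (affS y i))), s.card = n →
      t (s.map (eCls hy hn hi (φ u))) = (mapDegree (φ u) : ℝ) * t s := by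
    intro u s hs
    rw [ht]
    beta_reduce
    exact_mod_cast I_emap hy hn hi (φ u) hs
  have hmulD : ∀ u v, (mapDegree (φ (u + v)) : ℝ) = mapDegree (φ u) * mapDegree (φ v) := by
    intro u v
    have hs0 : (Multiset.replicate n (hcls hy hi)).card = n := Multiset.card_replicate _ _
    have h1 := hI (u + v) (Multiset.replicate n (hcls hy hi)) hs0
    have h2 := hI v (Multiset.replicate n (hcls hy hi)) hs0
    have h3 := hI u ((Multiset.replicate n (hcls hy hi)).map (eCls hy hn hi (φ v)))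
      (by rw [Multiset.card_map]; exact hs0)
    rw [h2, Multiset.map_map] at h3
    have e : (eCls hy hn hi (φ u)) ∘ (eCls hy hn hi (φ v)) = eCls hy hn hi (φ (u + v)) := by
      funext A
      change eCls hy hn hi (φ u) (eCls hy hn hi (φ v) A) = _
      rw [eCls_eCls, hφ]
    rw [e, h1] at h3
    have hpos : 0 < t (Multiset.replicate n (hcls hy hi)) := by
      rw [ht]
      beta_reduce
      exact_mod_cast I_pos cx hs0
    have h4 : (mapDegree (φ (u + v)) : ℝ) * t (Multiset.replicate n (hcls hy hi)) =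
        (mapDegree (φ u) * mapDegree (φ v) : ℝ) * t (Multiset.replicate n (hcls hy hi)) := by
      rw [h3]; ring
    exact mul_right_cancel₀ hpos.ne' h4
  have hexp : ∀ u : Fin r → ℕ, Real.exp (∑ j, Real.log (mapDegree (φ (Pi.single j 1)) : ℝ) *
      (u j : ℝ)) = mapDegree (φ u) := by
    intro u
    have h00 : (mapDegree (φ 0) : ℝ) = 1 := by
      have h1 := hmulD 0 0
      rw [add_zero] at h1
      have h2 := hdpos 0
      have h3 : (mapDegree (φ 0) : ℝ) * (mapDegree (φ 0) : ℝ) = (mapDegree (φ 0) : ℝ) * 1 := by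
        rw [mul_one]; exact h1.symm
      exact mul_left_cancel₀ h2.ne' h3
    let F : (Fin r → ℕ) →+ ℝ :=
      { toFun := fun u => Real.log (mapDegree (φ u) : ℝ)
        map_zero' := by rw [h00, Real.log_one]
        map_add' := fun u v => by rw [hmulD, Real.log_mul (hdpos u).ne' (hdpos v).ne'] }
    have h1 : F u = ∑ j, Real.log (mapDegree (φ (Pi.single j 1)) : ℝ) * (u j : ℝ) := by
      conv_lhs => rw [← Finset.univ_sum_single u]
      rw [map_sum]
      refine Finset.sum_congr rfl fun j _ => ?_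
      have e : (Pi.single j (u j) : Fin r → ℕ) = (u j) • Pi.single j 1 := by
        rw [← Pi.single_smul]
        simp
      rw [e, map_nsmul, nsmul_eq_mul, mul_comm]
      rfl
    rw [← h1]
    exact Real.exp_log (hdpos u)
  -- comparison after all maps
  have hLeW : ∀ (V V' : Cls ℂ (affS y i)) (g : K), g ≠ 0 → (∀ v ∈ V.V, g * v ∈ V'.V) →
      ∀ w, Le n t 1 (eCls hy hn hi (φ w) V) (eCls hy hn hi (φ w) V') := by
    intro V V' g hg0 hV w s hs
    rw [ht, one_mul]
    refine Nat.cast_le.2 (I_mono cx (g := φ w g) (by rwa [Ne, map_eq_zero]) ?_ hs)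
    rintro _ ⟨v, hv, rfl⟩
    exact ⟨g * v, hV v hv, map_mul (φ w) g v⟩
  -- pull back
  have hMpull : ∀ ψ : K →ₐ[ℂ] K, EPulls y c Δ ψ → ∀ A : {A : Place ℂ K → ℚ // Effective y A},
      ∃ A' : {A : Place ℂ K → ℚ // Effective y A}, ∃ J : K, J ≠ 0 ∧ ∀ q, ∀ v ∈ (M A q).V,
        (J ^ m q * ψ (g q 0) / g q 0) * ψ v ∈ (M A' q).V := by
    intro ψ hψ A
    obtain ⟨J, hJ, B, hB, hB1⟩ := hψ (A₁ + A.1) (Effective.add' hA₁ A.2)
    refine ⟨⟨B, hB⟩, J, hJ, fun q v hv => ?_⟩
    rw [hMmem] at hv ⊢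
    have e1 := hB1 (m q) (b q + 1) (hm1 q) _ hv
    have e2 : g q 0 * (J ^ m q * ψ (g q 0) / g q 0 * ψ v) = J ^ m q * ψ (g q 0 * v) := by
      rw [map_mul]
      have := hg0 q
      field_simp
    rw [e2]
    refine Lsp_mono le_rfl hB.1 (fun P hP => ?_) e1
    have := hA₁.1 P hP
    change B P ≤ A₁ P + B P
    linarith
  -- the comparison with `H`
  have hMle : ∀ A : {A : Place ℂ K → ℚ // Effective y A}, ∀ᶠ q in Filter.atTop,
      Le n t (((β : ℝ) + 1) * m q) (M A q) (hcls hy hi) ∧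
      ∀ w, Le n t (((β : ℝ) + 1) * m q) (eCls hy hn hi (φ w) (M A q))
        (eCls hy hn hi (φ w) (hcls hy hi)) := by
    intro A
    obtain ⟨βA, gA, hgA, hdomA⟩ := hdom (A₁ + A.1) (Effective.add' hA₁ A.2)
    filter_upwards [Filter.eventually_ge_atTop (2 * βA)] with q hq
    have e2 : ((m q * β + (b q + 1) * βA : ℕ) : ℝ) ≤ ((β : ℝ) + 1) * m q := by
      push_cast
      have hmq : ((q : ℝ) + 1) ≤ m q := by exact_mod_cast hm q
      have hbq := hb q
      have hq' : 2 * (βA : ℝ) ≤ q := by exact_mod_cast hq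
      have hβ0 : (0 : ℝ) ≤ βA := Nat.cast_nonneg _
      have hm0 : (0 : ℝ) ≤ m q := Nat.cast_nonneg _
      have e3 : (b q : ℝ) * βA ≤ m q / 2 := by
        have e4 : (b q : ℝ) * βA ≤ 1 / ((q : ℝ) + 1) * m q * βA :=
          mul_le_mul_of_nonneg_right hbq hβ0
        have e5 : 1 / ((q : ℝ) + 1) * m q * βA = m q * (βA / (q + 1)) := by ring
        have e6 : (βA : ℝ) / (q + 1) ≤ 1 / 2 := by
          rw [div_le_div_iff₀ (by positivity) (by norm_num)]
          linarith
        have e7 := mul_le_mul_of_nonneg_left e6 hm0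
        linarith
      nlinarith
    have key : ∀ w, Le n t (((β : ℝ) + 1) * m q) (eCls hy hn hi (φ w) (M A q))
        (eCls hy hn hi (φ w) (hcls hy hi)) := by
      intro w s hs
      rw [ht]
      have e1 := I_dom_emap hy hn hi (φ w) (V := M A q)
        (B := m q * β + (b q + 1) * βA) (f := f ^ m q * gA ^ (b q + 1) * g q 0)
        (mul_ne_zero (mul_ne_zero (pow_ne_zero _ hf) (pow_ne_zero _ hgA)) (hg0 q))
        (fun v hv => by
          rw [mul_assoc]
          exact hdomA (m q) (b q + 1) _ ((hMmem A q v).1 hv)) hs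
      calc ((I (eCls hy hn hi (φ w) (M A q) ::ₘ s) : ℕ) : ℝ) ≤
            ((m q * β + (b q + 1) * βA : ℕ) : ℝ) *
            (I (eCls hy hn hi (φ w) (hcls hy hi) ::ₘ s) : ℝ) := by exact_mod_cast e1
        _ ≤ ((β : ℝ) + 1) * m q * (I (eCls hy hn hi (φ w) (hcls hy hi) ::ₘ s) : ℝ) :=
          mul_le_mul_of_nonneg_right e2 (Nat.cast_nonneg _)
    refine ⟨?_, key⟩
    have h3 := key 0
    rw [hφ0', eCls_one, eCls_one] at h3
    exact h3
  -- the lower bound for the spaces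
  obtain ⟨Z, hZ⟩ : ∃ Z : {A : Place ℂ K → ℚ // Effective y A}, Z.1 = 0 :=
    ⟨⟨0, fun _ _ => le_rfl, by
      refine Set.finite_empty.subset ?_
      rintro P ⟨-, h⟩
      exact h rfl⟩, rfl⟩
  have hlow : ∀ q, ε * (m q : ℝ) ^ ν ≤
      t (Multiset.replicate ν (M Z q) + Multiset.replicate (n - ν) (hcls hy hi)) := by
    intro q
    rw [ht]
    have hcard : (Multiset.replicate ν (M Z q) + Multiset.replicate (n - ν)
        (hcls hy hi)).card = n := by
      rw [Multiset.card_add, Multiset.card_replicate, Multiset.card_replicate]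
      omega
    have e1 : degreeOver (u q) (fun j : Fin ν => g q j.succ / g q 0) =
        dm ℂ (toM (u q) + toM (fun j : Fin ν => g q j.succ / g q 0)) :=
      deg_dm (toM_set _) (toM_set _)
    obtain ⟨Q', hQ', e2⟩ := replace_pencils' hy hn hi (toM (u q))
      (toM (fun j : Fin ν => g q j.succ / g q 0))
      (by rw [Multiset.card_add, toM_card, toM_card]; omega) (fun z hz => by
        obtain ⟨j, rfl⟩ := mem_toM.1 hz
        exact hu q j)
    rw [toM_card] at hQ'
    have hsel : Sel (toM (fun j : Fin ν => g q j.succ / g q 0))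
        (Multiset.replicate ν (M Z q)) := by
      rw [sel_rep]
      refine ⟨toM_card _, fun z hz => ?_⟩
      obtain ⟨j, rfl⟩ := mem_toM.1 hz
      rw [hMmem]
      have e3 : g q 0 * (g q j.succ / g q 0) = g q j.succ := mul_div_cancel₀ _ (hg0 q)
      rw [e3, hZ, add_zero, hA₁d]
      refine Lsp_mono (Nat.le_succ _) hA0.1 (fun P hP => ?_) (hg q j.succ)
      change A0 P ≤ A0 P + Hy P
      have := hHy.1 P hP
      linarith
    have e3 := le_I cx hcard (sel_add hsel hQ')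
    have e4 : degreeOver (u q) (fun j : Fin ν => g q j.succ / g q 0) ≤
        I (Multiset.replicate ν (M Z q) + Multiset.replicate (n - ν) (hcls hy hi)) := by
      rw [e1]
      rw [add_comm] at e3
      exact e2.trans e3
    have e5 : ((degreeOver (u q) (fun j : Fin ν => g q j.succ / g q 0) : ℕ) : ℝ) ≤
        (I (Multiset.replicate ν (M Z q) + Multiset.replicate (n - ν) (hcls hy hi)) : ℝ) :=
      Nat.cast_le.2 e4
    exact (hdeg q).le.trans e5
  refine ⟨fun q => (m q : ℝ), fun A q => M ⟨A.A, A.eff⟩ q, β + 1, ε / 2 ^ (ν + 1), ?_⟩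
  rw [← ht]
  refine ⟨hpos, ?_, hn0, hν, by positivity, by positivity, ?_, ?_, ?_, ?_, ?_, ?_, ?_, ?_, ?_, ?_⟩
  · -- ex
    rw [ht]
    exact exch cx
  · -- zero
    funext A
    rw [hφ0', eCls_one]
    rfl
  · -- add
    intro u v
    funext A
    change _ = eCls hy hn hi (φ u) (eCls hy hn hi (φ v) A)
    rw [eCls_eCls, hφ]
  · -- χ
    intro j
    exact Real.log_natCast_nonneg _
  · -- inv
    intro u s hs
    rw [hexp]
    exact hI u s hs
  · -- mul_t
    intro a b s hs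
    rw [ht]
    beta_reduce
    have h1 := I_add cx (D := mulCls (fin_affS i) (one_affS hi) a b) (V := a) (V' := b)
      le_rfl hs
    have h2 := I_mul_ge cx (D := mulCls (fin_affS i) (one_affS hi) a b) (V := a) (V' := b)
      le_rfl hs
    exact_mod_cast le_antisymm h1 h2
  · -- m_pos
    intro q
    exact_mod_cast hm1 q
  · -- mono
    intro A A' hAA w q
    refine hLeW _ _ 1 one_ne_zero (fun v hv => ?_) w
    rw [one_mul]
    rw [hMmem] at hv ⊢
    refine Lsp_mono le_rfl (Effective.add' hA₁ A.eff).1 (fun P hP => ?_) hv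
    have := hAA P hP
    change A₁ P + A.A P ≤ A₁ P + A'.A P
    linarith
  · -- M_f
    intro u A
    obtain ⟨A', J, hJ, hA'⟩ := hMpull (φ u) (hP1 u) ⟨A.A, A.eff⟩
    refine ⟨⟨A'.1, A'.2⟩, fun w q => hLeW _ _ (J ^ m q * φ u (g q 0) / g q 0)
      (div_ne_zero (mul_ne_zero (pow_ne_zero _ hJ) (by rw [Ne, map_eq_zero]; exact hg0 q))
        (hg0 q)) ?_ w⟩
    rintro _ ⟨v, hv, rfl⟩
    exact hA' q v hv
  · -- M_le
    intro A
    filter_upwards [hMle ⟨A.A, A.eff⟩] with q hq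
    exact hq.1
  · -- eps
    intro u
    obtain ⟨A', β₁, hcmp⟩ := eps_cmp hy hn hi hcfin hΔ (hP2 u) hA₁ hm1
      (fun q => Nat.succ_pos _) hg0 hMmem hZ
    refine ⟨⟨A'.1, A'.2⟩, ?_⟩
    -- the pull back of `H`
    obtain ⟨Bw, fw, hfw, hBw⟩ := (eCls hy hn hi (φ u) (hcls hy hi)).dom
    have hFH : Le n t (Bw : ℝ) (eCls hy hn hi (φ u) (hcls hy hi)) (hcls hy hi) := by
      intro s hs
      rw [ht]
      have e1 := I_dom cx (V := eCls hy hn hi (φ u) (hcls hy hi)) (H := hcls hy hi)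
        (fun v hv => hv) hfw hBw hs
      beta_reduce
      exact_mod_cast e1
    refine eps_abs (M₀ := fun q => M Z q) (M₁ := fun q => eCls hy hn hi (φ u) (M A' q))
      (v := (β₁ : ℝ) + 1) (c := ((β : ℝ) + 1) * (Bw + 1)) hν hpos (fun q => ?_) hmt hε
      (by positivity) (by positivity) hlow (fun q s hs => ?_) ?_
    · exact_mod_cast hm1 q
    · have e1 := hcmp q s hs
      have e2 : (I (M Z q ::ₘ s) : ℝ) ≤ I (eCls hy hn hi (φ u) (M A' q) ::ₘ s) +
          β₁ * I (hcls hy hi ::ₘ s) := by exact_mod_cast e1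
      rw [ht]
      beta_reduce
      have e3 : (0 : ℝ) ≤ I (hcls hy hi ::ₘ s) := Nat.cast_nonneg _
      linarith
    · filter_upwards [hMle A'] with q hq s hs
      have e1 := hq.2 u s hs
      have e2 := hFH s hs
      have e3 : 0 < t (hcls hy hi ::ₘ s) := hpos _ (by rw [Multiset.card_cons]; exact hs)
      have e4 : (0 : ℝ) ≤ ((β : ℝ) + 1) * m q := by positivity
      calc t (eCls hy hn hi (φ u) (M A' q) ::ₘ s) ≤ ((β : ℝ) + 1) * m q *
            t (eCls hy hn hi (φ u) (hcls hy hi) ::ₘ s) := e1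
        _ ≤ ((β : ℝ) + 1) * m q * (Bw * t (hcls hy hi ::ₘ s)) :=
            mul_le_mul_of_nonneg_left e2 e4
        _ ≤ ((β : ℝ) + 1) * (Bw + 1) * m q * t (hcls hy hi ::ₘ s) := by
            nlinarith [mul_nonneg e4 e3.le]

end

end Pool.Agent.Helper45M.TR
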