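import Pool.Agent.N110.QPull
import Pool.Agent.W619.PQ.Tr

/-!
Traces of sections: orders of traces in finite extensions.
-/

set_option autoImplicit false
set_option linter.overlappingInstances false
set_option linter.unusedSectionVars false

open FF Module MvPolynomial Pool.Agent.W602.GT Pool.Agent.W603.LV
open Pool.Agent.Y172 Pool.Agent.Y191 Pool.Agent.R887 Pool.Agent.W619.PQ Pool.Agent.N110

namespace Pool.Agent.Helper45M.TR

section

variable {K K' : Type} [Field K] [Algebra ℂ K] [Field K'] [Algebra ℂ K'] [Algebra K K']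
  [IsScalarTower ℂ K K'] [FiniteDimensional K K']

/-- the trace of an element which is regular at all places over `P` -/
theorem trace_reg (P : Place ℂ K) (z : K')
    (hz : ∀ (w : Place ℂ K') (e : ℕ), Over w P e → Ge w 0 z) :
    Ge P 0 (Algebra.trace K K' z) := by
  let iA : Algebra P.O K' := algO P
  have hst : IsScalarTower P.O K K' := IsScalarTower.of_algebraMap_eq fun _ => rfl
  have h1 : IsIntegral P.O z := isIntegral_of_reg P z hz
  have h2 : IsIntegral P.O (Algebra.trace K K' z) := Algebra.isIntegral_trace h1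
  exact P.reg_of_isIntegral (A := P.O) (fun a => a.2) h2

/-- the order of the trace -/
theorem trace_ge (P : Place ℂ K) (z : K') (k : ℤ)
    (hz : ∀ (w : Place ℂ K') (e : ℕ), Over w P e → Ge w (e * k) z) :
    Ge P k (Algebra.trace K K' z) := by
  obtain ⟨t, ht0, ht⟩ := P.surj
  have htk : t ^ (-k) ≠ 0 := zpow_ne_zero _ ht0
  have hord : P.ord (t ^ (-k)) = -k := by rw [P.ord_zpow, ht, mul_one]
  have h1 : Ge P 0 (Algebra.trace K K' ((t ^ (-k)) • z)) := by
    refine trace_reg P _ fun w e hw => ?_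
    rw [Algebra.smul_def]
    have h2 : Ge w (e * -k) (algebraMap K K' (t ^ (-k))) := by
      right
      rw [hw.2, hord]
    have h3 := h2.mul (hz w e hw)
    refine h3.mono ?_
    ring_nf
    exact le_rfl
  rw [map_smul, smul_eq_mul] at h1
  have h2 := Ge.of_mul htk h1
  rw [hord] at h2
  simpa using h2

/-- orders at the places over `P` are bounded by orders at `P` -/
theorem low_over (f : K') : ∃ T : Finset K, ∀ (P : Place ℂ K) (Q : Place ℂ K') (e : ℕ),
    Over Q P e → -(e * ∑ a ∈ T, |P.ord a|) ≤ Q.ord f := by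
  classical
  have hint : IsIntegral K f := Algebra.IsIntegral.isIntegral f
  obtain ⟨p, hp⟩ : ∃ p, p = minpoly K f := ⟨_, rfl⟩
  have hmon : p.Monic := by rw [hp]; exact minpoly.monic hint
  have hroot : Polynomial.aeval f p = 0 := by rw [hp]; exact minpoly.aeval K f
  have hd : 1 ≤ p.natDegree := by rw [hp]; exact minpoly.natDegree_pos hint
  refine ⟨(Finset.range p.natDegree).image p.coeff, fun P Q e hQ => ?_⟩
  by_contra hcon
  push Not at hcon
  obtain ⟨M, hM⟩ : ∃ M : ℤ, M = ∑ a ∈ (Finset.range p.natDegree).image p.coeff, |P.ord a| :=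
    ⟨_, rfl⟩
  rw [← hM] at hcon
  have he : (0 : ℤ) ≤ e := Int.natCast_nonneg _
  have hM0 : 0 ≤ M := by rw [hM]; exact Finset.sum_nonneg fun _ _ => abs_nonneg _
  have hneg : Q.ord f < 0 := by nlinarith
  have hf0 : f ≠ 0 := by
    intro h
    rw [h, Q.ord_zero] at hneg
    exact lt_irrefl _ hneg
  -- the equation
  have h1 : f ^ p.natDegree = -∑ i ∈ Finset.range p.natDegree,
      algebraMap K K' (p.coeff i) * f ^ i := by
    have h2 := hroot
    rw [Polynomial.aeval_eq_sum_range, Finset.sum_range_succ, hmon.coeff_natDegree, one_smul]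
      at h2
    rw [eq_neg_iff_add_eq_zero, add_comm, ← h2]
    congr 1
    exact Finset.sum_congr rfl fun i _ => by rw [Algebra.smul_def]
  have h2 : Ge Q (p.natDegree * Q.ord f + 1) (f ^ p.natDegree) := by
    rw [h1]
    refine Ge.neg (Ge.sum _ _ fun i hi => ?_)
    rw [Finset.mem_range] at hi
    by_cases ha : p.coeff i = 0
    · left
      rw [ha, map_zero, zero_mul]
    have h3 : |P.ord (p.coeff i)| ≤ M := by
      rw [hM]
      exact Finset.single_le_sum (f := fun a => |P.ord a|) (fun _ _ => abs_nonneg _)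
        (Finset.mem_image.2 ⟨i, Finset.mem_range.2 hi, rfl⟩)
    right
    rw [Q.ord_mul (by rwa [Ne, map_eq_zero]) (pow_ne_zero _ hf0), Q.ord_pow, hQ.2]
    have h4 : -M ≤ P.ord (p.coeff i) := (abs_le.1 h3).1
    have h5 : (e : ℤ) * -M ≤ e * P.ord (p.coeff i) := mul_le_mul_of_nonneg_left h4 he
    have h6 : (i : ℤ) + 1 ≤ p.natDegree := by exact_mod_cast hi
    have h7 : (p.natDegree : ℤ) * Q.ord f ≤ (i + 1) * Q.ord f :=
      mul_le_mul_of_nonpos_right h6 hneg.le
    nlinarith
  have h3 := h2.resolve_left (pow_ne_zero _ hf0)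
  rw [Q.ord_pow] at h3
  omega

/-- orders at the places over `P` are bounded by orders at `P` -/
theorem abs_over (f : K') : ∃ T : Finset K, ∀ (P : Place ℂ K) (Q : Place ℂ K') (e : ℕ),
    Over Q P e → |Q.ord f| ≤ e * ∑ a ∈ T, |P.ord a| := by
  classical
  obtain ⟨T1, h1⟩ := low_over (K := K) f
  obtain ⟨T2, h2⟩ := low_over (K := K) f⁻¹
  refine ⟨T1 ∪ T2, fun P Q e hQ => ?_⟩
  have h3 := h1 P Q e hQ
  have h4 := h2 P Q e hQ
  rw [Q.ord_inv] at h4
  have e1 : ∑ a ∈ T1, |P.ord a| ≤ ∑ a ∈ T1 ∪ T2, |P.ord a| :=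
    Finset.sum_le_sum_of_subset_of_nonneg Finset.subset_union_left fun _ _ _ => abs_nonneg _
  have e2 : ∑ a ∈ T2, |P.ord a| ≤ ∑ a ∈ T1 ∪ T2, |P.ord a| :=
    Finset.sum_le_sum_of_subset_of_nonneg Finset.subset_union_right fun _ _ _ => abs_nonneg _
  have he : (0 : ℤ) ≤ e := Int.natCast_nonneg _
  have e3 := mul_le_mul_of_nonneg_left e1 he
  have e4 := mul_le_mul_of_nonneg_left e2 he
  rw [abs_le]
  constructor
  · linarith
  · linarith

end

end Pool.Agent.Helper45M.TR
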