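import Pool.Agent.Helper45M.TR.Plateau
import Pool.Agent.R887.Low

/-!
The number of the zeros of sections.
-/

set_option autoImplicit false
set_option linter.overlappingInstances false
set_option linter.unusedSectionVars false

open FF Module MvPolynomial Pool.Agent.W602.GT Pool.Agent.W603.LV
open Pool.Agent.Y172 Pool.Agent.Y191 Pool.Agent.R887 Pool.Agent.N110

namespace Pool.Agent.Helper45M.TR

section

variable {K : Type} [Field K] [Algebra ℂ K] {n : ℕ}

/-- **A lower bound for the degree**, by several poles. -/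
theorem deg_ge_sum [Algebra.EssFiniteType ℂ K] (hn : Algebra.trdeg ℂ K = n) (hn0 : 0 < n)
    {T : Finset (Place ℂ K)} {u : Fin (n - 1) → K} (hu : ∀ P ∈ T, Indep P u) {g : K} :
    ∑ P ∈ T, max (-P.ord g) 0 ≤ degreeOver u (fun _ : Fin 1 => g) := by
  classical
  by_cases hneg : ∃ P ∈ T, P.ord g < 0
  swap
  · push Not at hneg
    have h1 : ∑ P ∈ T, max (-P.ord g) 0 = 0 :=
      Finset.sum_eq_zero fun P hP => max_eq_right (by have := hneg P hP; omega)
    rw [h1]
    exact Int.natCast_nonneg _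
  obtain ⟨P, hPT, hg⟩ := hneg
  obtain ⟨F, hF⟩ : ∃ F, F = IntermediateField.adjoin ℂ (Set.range u) := ⟨_, rfl⟩
  have htriv : ∀ P ∈ T, ∀ m ∈ F, m ≠ 0 → P.ord m = 0 := by
    intro P hP
    rw [hF]
    exact (hu P hP).triv
  have htr : Transcendental F g := (up P F (htriv P hPT)).transcendental_of_ord_ne (f := g) (by
    change P.ord g ≠ 0
    omega)
  have htr' : Transcendental (Algebra.adjoin ℂ (Set.range u)) g := by
    intro h5
    apply htr
    rw [hF]
    open scoped IntermediateField.algebraAdjoinAdjoin in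
    exact h5.extendScalars (S := IntermediateField.adjoin ℂ (Set.range u))
      (FaithfulSMul.algebraMap_injective _ _)
  obtain ⟨w, hw⟩ : ∃ w : Option (Fin (n - 1)) → K, w = fun o => o.elim g u := ⟨_, rfl⟩
  have hwi : AlgebraicIndependent ℂ w := by
    rw [hw]
    exact ((hu P hPT).algInd.option_iff_transcendental g).2 htr'
  have hcard : (Cardinal.mk (Option (Fin (n - 1)))) = n := by
    rw [Cardinal.mk_fintype, Fintype.card_option, Fintype.card_fin]
    congr 1
    omega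
  have hbas : IsTranscendenceBasis ℂ w :=
    hwi.isTranscendenceBasis_of_trdeg_le_of_finite (by rw [hn, hcard])
  have hr : Set.range w = Set.range u ∪ {g} := by
    rw [hw]
    ext x
    simp only [Set.mem_range, Set.mem_union, Set.mem_singleton_iff]
    constructor
    · rintro ⟨o, rfl⟩
      rcases o with _ | i
      · exact Or.inr rfl
      · exact Or.inl ⟨i, rfl⟩
    · rintro (⟨i, rfl⟩ | rfl)
      · exact ⟨some i, rfl⟩
      · exact ⟨none, rfl⟩
  have hfin : FiniteDimensional (IntermediateField.adjoin ℂ (Set.range w)) K := by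
    have h1 : Algebra.IsAlgebraic (IntermediateField.adjoin ℂ (Set.range w)) K :=
      hbas.isAlgebraic_field
    have h4 : Algebra.EssFiniteType (IntermediateField.adjoin ℂ (Set.range w)) K :=
      Algebra.EssFiniteType.of_comp ℂ _ K
    obtain ⟨s, hs⟩ := IntermediateField.fg_top (IntermediateField.adjoin ℂ (Set.range w)) K
    have h5 : FiniteDimensional (IntermediateField.adjoin ℂ (Set.range w))
        (IntermediateField.adjoin (IntermediateField.adjoin ℂ (Set.range w)) (s : Set K)) :=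
      IntermediateField.finiteDimensional_adjoin (fun x _ => (h1.isAlgebraic x).isIntegral)
    rw [hs] at h5
    exact IntermediateField.topEquiv.toLinearEquiv.finiteDimensional
  have hd : dg ℂ w = finrank (IntermediateField.adjoin F {g}) K := by
    rw [hF]
    exact dg_simple hr
  have hd' : degreeOver u (fun _ : Fin 1 => g) = dg ℂ w := by
    unfold degreeOver dg
    rw [hr, Set.range_const]
  have hpos : 0 < dg ℂ w := Module.finrank_pos
  have hfin' : FiniteDimensional (IntermediateField.adjoin F {g}) K :=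
    FiniteDimensional.of_finrank_pos (by rw [← hd]; exact hpos)
  have : IsFF F K := IsFF.of_finite htr hfin'
  have h1 := ddeg_polar (k := F) htr
  rw [hd', hd, ← h1]
  obtain ⟨Up, hUp⟩ : ∃ Up : {P // P ∈ T} → Place F K, ∀ P, Up P = up P.1 F (htriv P.1 P.2) :=
    ⟨_, fun _ => rfl⟩
  have hinj : Function.Injective Up := by
    intro P P' h
    rw [hUp, hUp] at h
    have h2 : (up P.1 F (htriv P.1 P.2)).ord = (up P'.1 F (htriv P'.1 P'.2)).ord :=
      congrArg Place.ord h
    exact Subtype.ext (Place.ext h2)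
  have h2 : ∑ P : {P // P ∈ T}, Finsupp.single (Up P) (max (-P.1.ord g) 0) ≤
      polar (k := F) g := by
    intro Q
    rw [polar_apply, Finsupp.finsetSum_apply]
    by_cases hQ : ∃ P, Up P = Q
    · obtain ⟨P, rfl⟩ := hQ
      rw [Finset.sum_eq_single P]
      · rw [Finsupp.single_eq_same, hUp]
        exact le_rfl
      · intro P' _ hne
        exact Finsupp.single_eq_of_ne' fun h => hne (hinj h)
      · intro h
        exact absurd (Finset.mem_univ _) h
    · push Not at hQ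
      rw [Finset.sum_eq_zero]
      · exact le_max_right _ _
      · intro P _
        exact Finsupp.single_eq_of_ne' (hQ P)
  have h3 := ddeg_mono h2
  have h4 : ddeg (∑ P : {P // P ∈ T}, Finsupp.single (Up P) (max (-P.1.ord g) 0)) =
      ∑ P : {P // P ∈ T}, max (-P.1.ord g) 0 * ((Up P).deg : ℤ) := by
    have key : ∀ s : Finset {P // P ∈ T}, ddeg (∑ P ∈ s, Finsupp.single (Up P)
        (max (-P.1.ord g) 0)) = ∑ P ∈ s, max (-P.1.ord g) 0 * ((Up P).deg : ℤ) := by
      intro s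
      induction s using Finset.induction_on with
      | empty => rw [Finset.sum_empty, Finset.sum_empty, ddeg_zero]
      | insert a s ha ih =>
        rw [Finset.sum_insert ha, Finset.sum_insert ha, ddeg_add, ih, ddeg_single]
    exact key _
  rw [h4] at h3
  refine le_trans ?_ h3
  rw [← Finset.sum_attach T, Finset.univ_eq_attach]
  refine Finset.sum_le_sum fun P _ => ?_
  have h5 : (1 : ℤ) ≤ (Up P).deg := by exact_mod_cast (Up P).deg_pos
  have h6 : (0 : ℤ) ≤ max (-P.1.ord g) 0 := le_max_right _ _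
  nlinarith

end

section

variable {K : Type} [Field K] [Algebra ℂ K] {N n : ℕ} {y : Fin (N + 1) → K}

/-- the degrees of the maps given by pencils and one hyperplane section are bounded -/
theorem pencil_bd (hy : NormalModel y) (hn : Algebra.trdeg ℂ K = n) (hn0 : 0 < n)
    {i : Fin (N + 1)} (hi : y i ≠ 0) : ∃ C : ℕ, ∀ u : Fin (n - 1) → K, (∀ a, IsPencil y (u a)) →
      ∀ v ∈ Submodule.span ℂ (affS y i), dm ℂ (v ::ₘ toM u) ≤ C := by
  obtain ⟨C, hC⟩ := bez hy hn hi
  refine ⟨C, fun u hu v hv => ?_⟩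
  obtain ⟨Q', hQ', h1⟩ := replace_pencils' hy hn hi (toM u) {v}
    (by rw [Multiset.card_add, toM_card, Multiset.card_singleton]; omega) (fun z hz => by
      obtain ⟨j, rfl⟩ := mem_toM.1 hz
      exact hu j)
  have e1 : toM u + {v} = v ::ₘ toM u := by
    rw [add_comm, Multiset.singleton_add]
  rw [e1] at h1
  refine h1.trans (hC _ ?_ ?_)
  · rw [Multiset.card_add, hQ'.card, Multiset.card_replicate, toM_card, Multiset.card_singleton]
    omega
  · intro x hx
    rw [Multiset.mem_add, Multiset.mem_singleton] at hx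
    rcases hx with hx | rfl
    · obtain ⟨V, hV, hxV⟩ := Multiset.exists_mem_of_rel_of_mem hQ' hx
      rw [Multiset.eq_of_mem_replicate hV] at hxV
      exact hxV
    · exact hv

/-- **The number of the zeros of sections.** -/
theorem zeros_bd (hy : NormalModel y) (hn : Algebra.trdeg ℂ K = n) (hn0 : 0 < n)
    {c : Place ℂ K → ℤ} (hcfin : {P | IsPrimeDivisor y P ∧ c P ≠ 0}.Finite)
    {Δ : Place ℂ K → ℚ} (hΔ : {P | IsPrimeDivisor y P ∧ Δ P ≠ 0}.Finite) :
    ∃ C : ℕ, ∀ (T : Finset (Place ℂ K)) (a : Place ℂ K → ℚ), (∀ P ∈ T, IsPrimeDivisor y P) →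
      (∀ P ∈ T, 0 ≤ a P) → ∀ A, Effective y A → ∀ Δ'' : Place ℂ K → ℚ,
      (∀ P ∈ T, Δ'' P ≤ Δ P - a P) → (∀ P, IsPrimeDivisor y P → Δ'' P ≤ Δ P) →
      (∀ t : ℝ, 0 < t → ∃ m b : ℕ, 1 ≤ m ∧ (b : ℝ) ≤ t * m ∧ ∃ g, g ≠ 0 ∧
        g ∈ Lsp y c m (m • Δ'' + b • A)) → ∑ P ∈ T, a P ≤ C := by
  classical
  have hess := hy.ess
  obtain ⟨i, hi⟩ := hy.ne
  obtain ⟨H, hH, hHP⟩ := exists_hyp hy hi
  have hT : Effective y (fun P => |(c P : ℚ)| + |Δ P|) := by
    refine ⟨fun P hP => add_nonneg (abs_nonneg _) (abs_nonneg _), (hcfin.union hΔ).subset ?_⟩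
    rintro P ⟨hP, h0⟩
    by_cases h1 : c P = 0
    · right
      refine ⟨hP, fun h2 => h0 ?_⟩
      simp only []
      rw [h1, h2, Int.cast_zero, abs_zero, add_zero]
    · exact Or.inl ⟨hP, h1⟩
  obtain ⟨f, β, hf0, hfb⟩ := dominate hy hT hi hH hHP
  obtain ⟨C₀, hC₀⟩ := pencil_bd hy hn hn0 hi
  refine ⟨β * C₀ + 1, fun T a hTP ha A hA Δ'' h1 h2 hseq => ?_⟩
  obtain ⟨gA, βA, hgA0, hgAb⟩ := dominate hy hA hi hH hHP
  obtain ⟨m, b, hm, hb, g, hg0, hg⟩ := hseq (1 / (βA * C₀ + 1)) (by positivity)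
  obtain ⟨G, hG⟩ : ∃ G, G = f ^ m * gA ^ b * g := ⟨_, rfl⟩
  obtain ⟨B, hB⟩ : ∃ B : ℕ, B = m * β + b * βA := ⟨_, rfl⟩
  have hG0 : G ≠ 0 := by
    rw [hG]
    exact mul_ne_zero (mul_ne_zero (pow_ne_zero _ hf0) (pow_ne_zero _ hgA0)) hg0
  have hordG : ∀ P : Place ℂ K, P.ord G = m * P.ord f + b * P.ord gA + P.ord g := by
    intro P
    rw [hG, P.ord_mul (mul_ne_zero (pow_ne_zero _ hf0) (pow_ne_zero _ hgA0)) hg0,
      P.ord_mul (pow_ne_zero _ hf0) (pow_ne_zero _ hgA0), P.ord_pow, P.ord_pow]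
  have hm0 : (0 : ℚ) ≤ m := Nat.cast_nonneg _
  have hb0 : (0 : ℚ) ≤ b := Nat.cast_nonneg _
  -- the order of `G`
  have hlow : ∀ P, IsPrimeDivisor y P → ∀ z : ℚ, Δ'' P ≤ Δ P - z →
      (m : ℚ) * z ≤ P.ord G + B * H P := by
    intro P hP z hz
    have e1 := (hg P hP).resolve_left hg0
    rw [Pi.add_apply, Pi.smul_apply, Pi.smul_apply, nsmul_eq_mul, nsmul_eq_mul] at e1
    have e2 := mul_le_mul_of_nonneg_left (hfb P hP) hm0
    have e3 := mul_le_mul_of_nonneg_left (hgAb P hP) hb0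
    have e4 := mul_le_mul_of_nonneg_left hz hm0
    have e5 := mul_le_mul_of_nonneg_left (neg_le_abs (c P : ℚ)) hm0
    have e6 := mul_le_mul_of_nonneg_left (le_abs_self (Δ P)) hm0
    have e5' := mul_le_mul_of_nonneg_left (le_abs_self (c P : ℚ)) hm0
    rw [hordG, hB]
    push_cast
    linarith
  have hbG : Bnd ℂ (affS y i) B G := by
    refine bnd_prime hy hi hG0 fun P hP l hl => ?_
    have e1 := hlow P hP 0 (by rw [sub_zero]; exact h2 P hP)
    rw [mul_zero, hHP P l hP hl] at e1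
    exact_mod_cast e1
  -- pencils and a hyperplane section
  obtain ⟨u, hup, hui⟩ := exists_pencils (n := n) hy.ne (Z := (T : Set (Place ℂ K)))
    T.finite_toSet (fun P hP => hTP P hP) (fun P hP => (hTP P hP).divisorial hy hn)
  obtain ⟨v, hv, hv0, hvo⟩ := exists_generic (k₀ := ℂ) (k := ℂ) (fin_affS (y := y) i)
    (T : Set (Place ℂ K)) T.finite_toSet ⟨1, one_affS hi, one_ne_zero⟩
  obtain ⟨μ, hμ⟩ := exists_isMin (k := ℂ) (fin_affS (y := y) i) ⟨1, one_affS hi, one_ne_zero⟩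
  have hbv : Bnd ℂ (affS y i) B (v ^ B) := by
    refine bnd_of_ge hμ (one_affS hi) fun P => Or.inr ?_
    rw [P.ord_pow]
    exact mul_le_mul_of_nonneg_left ((ge_span hμ hv P).resolve_left hv0) (Int.natCast_nonneg _)
  obtain ⟨v', hv', hle⟩ := repl hn (fin_affS (y := y) i) (one_affS hi) hG0 hbG hbv
    (W := toM u) (by rw [toM_card]; omega)
  have h3 := hC₀ u hup v' hv'
  have h4 := deg_ge_sum hn hn0 hui (g := v ^ B / G)
  have h5 : degreeOver u (fun _ : Fin 1 => v ^ B / G) = dm ℂ ((v ^ B / G) ::ₘ toM u) := by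
    rw [deg_dm (toM_set u) (V := {v ^ B / G}) (by
      ext x
      simp)]
    rw [add_comm, Multiset.singleton_add]
  rw [h5] at h4
  have h6 : ∀ P ∈ T, (m : ℚ) * a P ≤ ((max (-P.ord (v ^ B / G)) 0 : ℤ) : ℚ) := by
    intro P hP
    have e1 := hlow P (hTP P hP) (a P) (h1 P hP)
    obtain ⟨l, hl⟩ := exists_centred hy P
    have e2 : P.ord v ≤ P.ord (y l / y i) := hvo P hP _ ⟨l, rfl⟩ (div_ne_zero hl.1 hi)
    have e3 : P.ord (y l / y i) = -P.ord (y i / y l) := by
      rw [← P.ord_inv, inv_div]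
    rw [e3] at e2
    have e4 : P.ord (v ^ B / G) = B * P.ord v - P.ord G := by
      rw [P.ord_div (pow_ne_zero _ hv0) hG0, P.ord_pow]
    rw [hHP P l (hTP P hP) hl] at e1
    have e5 : (P.ord v : ℚ) ≤ -(P.ord (y i / y l) : ℚ) := by exact_mod_cast e2
    have hB0 : (0 : ℚ) ≤ B := Nat.cast_nonneg _
    have e6 := mul_le_mul_of_nonneg_left e5 hB0
    have e7 : ((-P.ord (v ^ B / G) : ℤ) : ℚ) ≤ ((max (-P.ord (v ^ B / G)) 0 : ℤ) : ℚ) := by
      exact_mod_cast le_max_left _ _
    refine le_trans ?_ e7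
    rw [e4]
    push_cast
    linarith
  have h7 : ∑ P ∈ T, (m : ℚ) * a P ≤ (B * C₀ : ℕ) := by
    refine (Finset.sum_le_sum h6).trans ?_
    have e1 : ((∑ P ∈ T, max (-P.ord (v ^ B / G)) 0 : ℤ) : ℚ) ≤
        ((dm ℂ ((v ^ B / G) ::ₘ toM u) : ℤ) : ℚ) := by exact_mod_cast h4
    rw [← Int.cast_sum]
    refine e1.trans ?_
    have e2 : dm ℂ ((v ^ B / G) ::ₘ toM u) ≤ B * C₀ :=
      hle.trans (Nat.mul_le_mul_left _ h3)
    exact_mod_cast e2
  rw [← Finset.mul_sum] at h7
  -- the limit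
  have hm1 : (0 : ℝ) < m := by exact_mod_cast hm
  have h8 : ((m : ℝ)) * ((∑ P ∈ T, a P : ℚ) : ℝ) ≤ ((B * C₀ : ℕ) : ℝ) := by exact_mod_cast h7
  have h9 : ((∑ P ∈ T, a P : ℚ) : ℝ) ≤ ((β * C₀ + 1 : ℕ) : ℝ) := by
    refine le_of_mul_le_mul_left (h8.trans ?_) hm1
    rw [hB]
    push_cast
    have e1 : (0 : ℝ) ≤ (βA : ℝ) * C₀ := by positivity
    have e2 : (b : ℝ) * ((βA : ℝ) * C₀) ≤ m := by
      calc (b : ℝ) * ((βA : ℝ) * C₀) ≤ (1 / (βA * C₀ + 1) * m) * ((βA : ℝ) * C₀) :=
            mul_le_mul_of_nonneg_right hb e1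
        _ = m * ((βA * C₀) / (βA * C₀ + 1)) := by ring
        _ ≤ m * 1 := mul_le_mul_of_nonneg_left (by
            rw [div_le_one (by positivity)]
            linarith) hm1.le
        _ = m := mul_one _
    nlinarith
  exact_mod_cast h9

end

end Pool.Agent.Helper45M.TR
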